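import Pool.Agent.H71.NS.Ns5

/-!
# Near-dead from far-dead

`NearS`: the velocities of the targets behind their natural digits are few given the near path of the
slope-one place, if they are few given the far path. `nearS : NearS`.
-/

set_option autoImplicit false

namespace Pool.NS71

open Finset Real MvPolynomial
open Pool.Agent.H49.Ent Pool.Agent.H32.Dense Pool.STK Pool.KA Pool.KSAT Pool.K2S Pool.PB Pool.GEN
open Pool.S6C Pool.RCD Pool.LA91 Pool.V0F Pool.FVL91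
open Pool.GRD (LbP)
open Pool.PRC54 (yQ)
open Pool.PR46 (P1)
open Pool.NS95 (tD bL vfL)
open Pool.BFL (Pb)
open Pool.CDX (AffL)
open Pool.T462 (FewN)
open Pool.T4A95 (ActI)
open Pool.T4C72 (BoxT)

/-- The number of the values of a finite sequence. -/
theorem cnt_seq {Ω : Type} [Fintype Ω] (p : Ω → ℝ) {A : Ω → Prop} {n : ℕ} {u : Ω → ℕ → ℤ}
    {a : ℕ → ℝ} {J : ℝ} (h : ∀ l < n, (cnt p (fun ω => u ω l) A : ℝ) ≤ Real.exp (a l * J))
    (h0 : ∀ ω, A ω → ∀ l, ¬ l < n → u ω l = 0) :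
    (cnt p u A : ℝ) ≤ Real.exp ((∑ l ∈ range n, a l) * J) := by
  classical
  have key : ∀ q ≤ n, (cnt p (fun ω (l : ℕ) => if l < q then u ω l else 0) A : ℝ) ≤
      Real.exp ((∑ l ∈ range q, a l) * J) := by
    intro q
    induction q with
    | zero =>
      intro _
      rw [range_zero, sum_empty, zero_mul, Real.exp_zero]
      have h1 := cnt_one_le p (fun _ : ℕ => (0 : ℤ)) A
      have h2 : (fun (ω : Ω) (l : ℕ) => if l < 0 then u ω l else 0) =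
          fun _ => (fun _ : ℕ => (0 : ℤ)) := by
        funext ω l
        exact if_neg (Nat.not_lt_zero l)
      rw [h2]
      exact_mod_cast h1
    | succ q ih =>
      intro hq
      have h1 := cnt_comp_le p (fun ω => ((fun l : ℕ => if l < q then u ω l else 0), u ω q))
        (fun ω (l : ℕ) => if l < q + 1 then u ω l else 0) (A := A)
        (fun v l => if l = q then v.2 else v.1 l) (by
        intro ω _ _
        funext l
        by_cases hl : l = q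
        · rw [if_pos hl, if_pos (by omega), hl]
        · rw [if_neg hl]
          by_cases hl2 : l < q
          · rw [if_pos (by omega)]
            exact (if_pos hl2).symm
          · rw [if_neg (by omega)]
            exact (if_neg hl2).symm)
      have h2 := cnt_pair p (fun ω (l : ℕ) => if l < q then u ω l else 0) (fun ω => u ω q) A
      have h3 : (cnt p (fun ω (l : ℕ) => if l < q + 1 then u ω l else 0) A : ℝ) ≤
          cnt p (fun ω (l : ℕ) => if l < q then u ω l else 0) A * cnt p (fun ω => u ω q) A := by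
        exact_mod_cast h1.trans h2
      refine h3.trans ?_
      rw [sum_range_succ, add_mul, Real.exp_add]
      exact mul_le_mul (ih (by omega)) (h q (by omega)) (Nat.cast_nonneg _) (Real.exp_pos _).le
  refine le_trans ?_ (key n le_rfl)
  have h1 := cnt_comp_le p (fun ω (l : ℕ) => if l < n then u ω l else 0) u (A := A)
    (fun v => v) (by
    intro ω _ hω
    funext l
    by_cases hl : l < n
    · exact (if_pos hl).symm
    · rw [h0 ω hω l hl]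
      exact (if_neg hl).symm)
  exact_mod_cast h1

theorem pe_part {Ω : Type} [Fintype Ω] {p : Ω → ℝ} {A Bad : Ω → Prop} (hA : 0 < Pe p A)
    {η : ℝ} (hb : Pb (Pool.Agent.H49.Ent.cond p A True) Bad ≤ η) :
    (1 - η) * Pe p A ≤ Pe p (fun ω => A ω ∧ ¬ Bad ω) := by
  classical
  rw [Pool.LA91.Pb_cond hA, div_le_iff₀ hA] at hb
  have h7 : Pe p A = Pe p (fun ω => A ω ∧ Bad ω) + Pe p (fun ω => A ω ∧ ¬ Bad ω) := by
    rw [Pe_eq, Pe_eq, Pe_eq, ← Finset.sum_add_distrib]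
    refine Finset.sum_congr rfl fun ω _ => ?_
    by_cases h8 : A ω
    · by_cases h9 : Bad ω <;> simp [h8, h9]
    · simp [h8]
  linarith

/-- The activity holds at positive digits only. -/
theorem act_nonneg {m : ℕ} {S : PCl m} (hS : S.Ne)
    (hpos : ∀ (τ : ℝ) (J : ℕ) (F : Fam m J) (A : F.Ω → Prop), S.St τ J F A → 0 < Pe F.p A)
    {i : Fin m} {a P Q : ℝ} (ha : 0 < a) (hPQ : P < Q) (h : ActI S i a P Q) : 0 ≤ Q := by
  by_contra hQ
  push Not at hQ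
  have hl2 : 0 < Real.log 2 := Real.log_pos one_lt_two
  have h1 : 0 < a * (Q - P) / 2 := by
    have : 0 < a * (Q - P) := mul_pos ha (by linarith)
    linarith
  have h2 : a * (Q - P) / 2 * Real.log 2 ≤ 0 := by
    refine le_of_bas hS (b := 0) fun ε hε => Bas.mono 0 ((h _ h1).and (pos_bas hpos)) ?_
    rintro J - F A ⟨h3, hA⟩
    have hJ0 : (0 : ℝ) ≤ J := Nat.cast_nonneg J
    have e1 : ⌊Q * (J : ℝ)⌋₊ = 0 := Nat.floor_of_nonpos (mul_nonpos_of_nonpos_of_nonneg hQ.le hJ0)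
    have e2 : ⌊P * (J : ℝ)⌋₊ = 0 :=
      Nat.floor_of_nonpos (mul_nonpos_of_nonpos_of_nonneg (by linarith) hJ0)
    have e4 : CH (Pool.Agent.H49.Ent.cond F.p A True) (fun ω => F.D 0 ω i)
        (fun ω => (F.D 0 ω, (F.X J ω, F.W ω))) = 0 :=
      CH_eq_zero (isLaw_cond F.isLaw hA).nonneg fun ω ν _ _ e => by
        exact congrFun (Prod.ext_iff.mp e).1 i
    rw [e1, e2, e4] at h3
    have e3 : a * (Q - P) - a * (Q - P) / 2 = a * (Q - P) / 2 := by ring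
    rw [e3] at h3
    have := mul_nonneg hε.le hJ0
    linarith
  have := mul_pos h1 hl2
  linarith

/-- **Near-dead from far-dead**, with the constants. -/
theorem near_cls {f : ℕ} {s hr δ T φ₁ R Λ e : ℝ} (hs : 1 < s) (hδ : 0 < δ)
    (hT : 1 ≤ T) (hφ₁ : 0 < φ₁) (hφ16 : φ₁ ≤ 1 / 16) (hφδ : 20 * ((f : ℝ) + 2) * φ₁ ≤ δ)
    (hR : R = T + 6 + 6 / (s - 1)) (hΛ : R + 4 ≤ Λ) (he : 0 < e)
    (he1 : 16 * s * ((f : ℝ) + 7) ^ 2 * e ≤ φ₁) (he2 : 400 * e ≤ δ)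
    {D : ℕ} {S : PCl (f + 2)} {c : ℕ → Fin (f + 2)} {sn sp : ℕ → ℝ → ℝ} {G : Set ℝ}
    {b o w u φ' df a : ℝ} {lam : ℝ → ℝ} {bl pl Nf Nn : ℕ → ℝ} (hS : S.Ne)
    (hpos : ∀ (τ : ℝ) (J : ℕ) (F : Fam (f + 2) J) (A : F.Ω → Prop), S.St τ J F A →
      0 < Pe F.p A)
    (X : BoxT S c 1 f D sn sp G s hr b o w u Λ φ' e lam) (hφ' : φ' ≤ e * u)
    (hbl : ∀ l ≤ f, bl l ≤ w ∧ sn (1 + l) w - e * u ≤ pl l ∧
      AffL S ((range (1 + l)).image c) (c (1 + l)) (bl l) (pl l))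
    (hlb : ∀ v ∈ G, w ≤ v → v ≤ w + Λ * u → ∃ bl' pl' : ℕ → ℝ, ∀ l ≤ f, bl' l ≤ v ∧
      sn (1 + l) v - e * u ≤ pl' l ∧
      AffL S ((range (1 + l)).image c) (c (1 + l)) (bl' l) (pl' l))
    (ha : 0 < a) (hact : ∀ P Q : ℝ, sn 0 w - w + u ≤ P → P + φ₁ * u ≤ Q →
      Q ≤ sn 0 w - w + 2 * u → ActI S (c 0) a P Q)
    (hdf : df ≤ δ / 80 * u) (hNf : ∀ l ≤ f, sn (1 + l) w - w + (1 + 2 * φ₁) * u ≤ Nf l)
    (hfar : FewN S (fun J F => ptr F J) (vg w) (yQ ((range 1).image c) (sn 0 w + T * u)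
      (sn 0 w - w + T * u)) (qVel (f + 2) c 1 (f + 1) 1 bl pl Nf) df)
    (hNn : ∀ l ≤ f, Nn l ≤ sn (1 + l) w - w + (1 + 2 * φ₁) * u)
    (w₁ : ℚ) (Pn ln : ℝ) (hw1 : w ≤ w₁) (hw2 : (w₁ : ℝ) ≤ w + φ₁ * u)
    (hPn : sn 0 w + (1 + 8 * φ₁) * u ≤ Pn) (hln : sn 0 w - w + (1 + 8 * φ₁) * u ≤ ln) :
    FewN S (fun J F => ptr F J) (vg (w₁ : ℝ)) (yQ ((range 1).image c) Pn ln)
      (qVel (f + 2) c 1 (f + 1) 1 bl pl Nn) (δ * u) := by
  classical
  have hu := X.u0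
  have hf0 : (0 : ℝ) ≤ f := Nat.cast_nonneg f
  have hs1 : 0 < s - 1 := by linarith
  have hs0 : 0 < s := by linarith
  have hφ0 : 0 < φ' := X.lad.φ0
  obtain ⟨C₀, htm⟩ := X.lad.tm
  have hl2 : 0 < Real.log 2 := Real.log_pos one_lt_two
  have hl21 : Real.log 2 ≤ 1 := by
    have := Real.log_two_lt_d9
    linarith
  -- the units
  obtain ⟨θ, hθ⟩ : ∃ θ, θ = φ₁ * u / ((f : ℝ) + 7) ^ 2 := ⟨_, rfl⟩
  have hf7 : (0 : ℝ) < ((f : ℝ) + 7) ^ 2 := by positivity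
  have hf49 : (49 : ℝ) ≤ ((f : ℝ) + 7) ^ 2 := by nlinarith only [hf0]
  have hφu : 0 < φ₁ * u := mul_pos hφ₁ hu
  have hθ0 : 0 < θ := by
    rw [hθ]
    exact div_pos hφu hf7
  have hθf : ((f : ℝ) + 7) ^ 2 * θ = φ₁ * u := by
    rw [hθ]
    field_simp
  have heu : 0 < e * u := mul_pos he hu
  have heθ : 16 * s * (e * u) ≤ θ := by
    rw [hθ, le_div_iff₀ hf7]
    have := mul_le_mul_of_nonneg_right he1 hu.le
    refine le_trans (le_of_eq ?_) this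
    ring
  have hseu : e * u ≤ s * (e * u) := le_mul_of_one_le_left heu.le hs.le
  have heθ1 : 16 * (e * u) ≤ θ := by linarith only [heθ, hseu]
  have hθφ : 49 * θ ≤ φ₁ * u := by
    rw [← hθf]
    exact mul_le_mul_of_nonneg_right hf49 hθ0.le
  have hφu16 : 16 * (φ₁ * u) ≤ u := by
    have := mul_le_mul_of_nonneg_right hφ16 hu.le
    linarith only [this]
  have hφ'1 : 16 * φ' ≤ u := by linarith only [hφ', heθ1, hθφ, hφu16, hθ0, hu]
  have hδu : 0 < δ * u := mul_pos hδ hu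
  have heδ : 400 * (e * u) ≤ δ * u := by
    have := mul_le_mul_of_nonneg_right he2 hu.le
    linarith only [this]
  have h6s : (s - 1) * (6 / (s - 1)) = 6 := by field_simp
  have hsd : 0 < 6 / (s - 1) := by positivity
  have hRs : 6 ≤ (s - 1) * (R - 1) := by
    have e1 : (s - 1) * (R - 1) = (s - 1) * (T + 5) + (s - 1) * (6 / (s - 1)) := by
      rw [hR]
      ring
    rw [e1, h6s]
    have : 0 ≤ (s - 1) * (T + 5) := mul_nonneg hs1.le (by linarith only [hT])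
    linarith only [this]
  have hRT : T + 6 ≤ R := by linarith only [hR, hsd]
  have hΛ0 : 0 < Λ := by linarith only [hΛ, hRT, hT]
  have hΛu : (R + 4) * u ≤ Λ * u := mul_le_mul_of_nonneg_right hΛ hu.le
  have hRu : (T + 6) * u ≤ R * u := mul_le_mul_of_nonneg_right hRT hu.le
  have hTu : u ≤ T * u := le_mul_of_one_le_left hu.le hT
  have hbw := X.bw
  have hwo := X.wo
  have ho1 := X.o1
  have hb0 := X.b0
  have hΛu0 : 0 < Λ * u := mul_pos hΛ0 hu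
  -- the deep window
  obtain ⟨x', hxG, hx⟩ := X.lad.gap (w + R * u) (by linarith only [hbw, hRu, hTu, hu, hΛu0])
    (by linarith only [hwo, hΛu, hu])
  have hx1 := abs_le.1 hx
  have hxa : w + (R - 1) * u ≤ x' := by linarith only [hx1.1, hφ'1, hu]
  have hxb : x' ≤ w + (R + 1) * u := by linarith only [hx1.2, hφ'1, hu]
  have hxΛ : x' ≤ w + Λ * u := by linarith only [hxb, hΛu, hu]
  have hxo : x' ≤ o := by linarith only [hxΛ, hwo]
  have hx'1 : x' ≤ 1 := by linarith only [hxo, ho1, hΛu0]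
  have hwx : w ≤ x' := by linarith only [hxa, hRu, hTu, hu]
  have hbw' : b ≤ w := by linarith only [hbw, hΛu0]
  have hwo' : w ≤ o := by linarith only [hwx, hxo]
  have hgap : ∀ x, w ≤ x → x ≤ x' → ∃ v ∈ G, |v - x| ≤ φ' := fun x h1 h2 =>
    X.lad.gap x (hbw'.trans h1) (h2.trans hxo)
  have h2φ : 2 * φ' < θ / s := by
    rw [lt_div_iff₀ hs0]
    have : φ' * s ≤ e * u * s := mul_le_mul_of_nonneg_right hφ' hs0.le
    linarith only [this, heθ, hθ0]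
  obtain ⟨N, v, v0, vN, hv, hvs⟩ := mesh X.wG hxG hwx h2φ hgap
  have hvo : ∀ j ≤ N, v j ≤ o := fun j hj => (hv j hj).2.2.trans hxo
  have hvb : ∀ j ≤ N, b ≤ v j := fun j hj => hbw'.trans (hv j hj).2.1
  have hv1 : ∀ j ≤ N, v j ≤ 1 := fun j hj => (hv j hj).2.2.trans hx'1
  have hstep : ∀ j < N, s * (v (j + 1) - v j) ≤ θ := fun j hj => by
    have := (hvs j hj).2
    rw [le_div_iff₀ hs0] at this
    linarith only [this]
  have hch : ∀ j ≤ N, ∃ (u₁ : ℝ) (rd : ℕ → ℝ),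
      Chn S c 0 (1 + f) (v j) (v j) u₁ (fun i => sn i (v j)) rd := fun j hj => by
    obtain ⟨u₁, rd, -, h1⟩ := X.lad.ch.ch (v j) (hv j hj).1
    exact ⟨u₁, rd, h1⟩
  have hfw := X.lad.fl 0 one_pos w X.wG hbw' hwo'
  have hfl : ∀ x ∈ G, w ≤ x → x ≤ o → |sn 0 x - sn 0 w - (x - w)| ≤ 2 * φ' := fun x h1 h2 h3 => by
    have h4 := X.lad.fl 0 one_pos x h1 (hbw'.trans h2) h3
    have h5 := abs_le.1 h4
    have h6 := abs_le.1 hfw
    rw [abs_le]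
    constructor
    · linarith only [h5.1, h5.2, h6.1, h6.2]
    · linarith only [h5.1, h5.2, h6.1, h6.2]
  have hl0 : ∀ j ≤ N, |sn 0 (v j) - sn 0 w - (v j - w)| ≤ θ := fun j hj =>
    (hfl (v j) (hv j hj).1 (hv j hj).2.1 (hvo j hj)).trans (by linarith only [hφ', heθ1, hθ0])
  have hla : ∀ j ≤ N, ∀ l ≤ f, |sn (1 + l) (v j) - sn (1 + l) w - s * (v j - w)| ≤ θ :=
    fun j hj l hl => (X.lin (1 + l) (by omega) (by omega) (v j) (hv j hj).1 (hvb j hj)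
      (hvo j hj)).trans (by linarith only [hφ', heθ1, hθ0])
  -- the constants
  obtain ⟨Mu, hMu⟩ : ∃ Mu : ℝ, Mu = ∑ l ∈ range (f + 1), (|Nn l| + (1 : ℕ) + 4) := ⟨_, rfl⟩
  have hMu0 : 0 ≤ Mu := by
    rw [hMu]
    exact Finset.sum_nonneg fun l _ => by positivity
  obtain ⟨η, hη⟩ : ∃ η : ℝ, η = min (1 / 2) (δ * u / (16 * (Mu + 1))) := ⟨_, rfl⟩
  have hη0 : 0 < η := by
    rw [hη]
    exact lt_min (by norm_num) (by positivity)
  have hη2 : η ≤ 1 / 2 := by rw [hη]; exact min_le_left _ _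
  have hηM : η * Mu ≤ δ * u / 16 := by
    have h1 : η ≤ δ * u / (16 * (Mu + 1)) := by rw [hη]; exact min_le_right _ _
    rw [le_div_iff₀ (by positivity)] at h1
    linarith only [h1, hη0]
  obtain ⟨a0, ha0⟩ : ∃ a0 : ℝ, a0 = sn 0 w - w := ⟨_, rfl⟩
  obtain ⟨pf, hpf1, hpf2⟩ := exists_rat_btwn (show a0 + (T + 1) * u < a0 + (T + 2) * u by
    linarith only [hu])
  obtain ⟨Pr, hPr⟩ : ∃ Pr : ℝ, Pr = a0 + (1 + 5 * φ₁) * u := ⟨_, rfl⟩
  obtain ⟨Qr, hQr⟩ : ∃ Qr : ℝ, Qr = a0 + (1 + 6 * φ₁) * u := ⟨_, rfl⟩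
  have hPQ : Qr - Pr = φ₁ * u := by rw [hPr, hQr]; ring
  have hact1 : ActI S (c 0) a Pr Qr := hact Pr Qr (by linarith only [hPr, ha0, hφu])
    (by linarith only [hPQ]) (by linarith only [hQr, ha0, hφu16, hφu])
  have hPr0 : 0 ≤ Pr := by
    have h1 := act_nonneg hS hpos ha (by linarith only [hφu])
      (hact (a0 + u) (a0 + u + φ₁ * u) (by rw [ha0]) le_rfl
        (by linarith only [ha0, hφu16, hu]))
    linarith only [h1, hPr, hφu]
  have hQr0 : 0 ≤ Qr := by linarith only [hPr0, hPQ, hφu]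
  have hpfQ : Qr ≤ pf := by linarith only [hQr, hpf1, hφu16, hTu, hu, hφu]
  have hpf0 : (0 : ℝ) ≤ pf := hQr0.trans hpfQ
  have hroom := (X.room 0 (by omega)).2
  have hfo : sn 0 w ≤ sn 0 o := by
    have h6 := abs_le.1 hfw
    linarith only [h6.1, h6.2, hwo, hΛu, hRu, hTu, hφ'1, hu]
  have hw0 : 0 ≤ w := by linarith only [hb0, hbw', hΛu0]
  have hw10 : (0 : ℝ) ≤ w₁ := hw0.trans hw1
  have hwpf : (w₁ : ℝ) + pf ≤ sn 0 w + (T + 3) * u := by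
    linarith only [hw2, hpf2, ha0, hφu16, hu, hφu]
  have hs01 : sn 0 w + (T + 3) * u ≤ 1 := by
    linarith only [hroom, hfo, hΛu, hRu, hu]
  have hw1x : (w₁ : ℝ) ≤ x' := by linarith only [hw2, hxa, hRu, hTu, hφu16, hu]
  have hwpf1 : sn 0 w + (T + 1) * u ≤ (w₁ : ℝ) + pf := by linarith only [hw1, hpf1, ha0]
  -- the inputs
  have hfree := X.free (fun _ => pf) w₁ x' hw1 hxG hw1x hxΛ (fun i => by
      obtain rfl : i = 0 := Subsingleton.elim _ _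
      refine ⟨?_, ?_⟩
      · show sn 0 w - w + u ≤ pf
        linarith only [ha0, hpf1, hTu, hu]
      · show (pf : ℝ) ≤ sn 0 w - w + Λ * u
        linarith only [ha0, hpf2, hΛu, hRu, hu]) (fun l i h => absurd h (by
      obtain rfl : i = 0 := Subsingleton.elim _ _
      obtain rfl : l = 0 := Subsingleton.elim _ _
      exact lt_irrefl _))
  obtain ⟨ub, rdb, hrdb, hchb⟩ := X.lad.ch.ch b X.lad.bG
  have hattb := att_le (hchb.att 0 le_rfl (by omega)) (p' := sp 0 b) (by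
    have := X.spb 0 one_pos
    show sp 0 b ≤ sn 0 b
    linarith only [this, hφ0])
  obtain ⟨ux, rdx, hrdx, hchx⟩ := X.lad.ch.ch x' hxG
  have hattx := hchx.att 0 le_rfl (by omega)
  have hN0x : sn 0 w + (T + 3) * u < sn 0 x' := by
    have h1 := abs_le.1 (hfl x' hxG hwx hxo)
    linarith only [h1.1, hxa, hRu, hφ'1, hu]
  obtain ⟨ηr, hηr⟩ := X.rn w₁
  have hbw1 : b ≤ w₁ := hbw'.trans hw1
  have hw11 : (w₁ : ℝ) ≤ 1 := hw1x.trans hx'1
  have hδ4 : 0 < δ * u / 400 := by positivity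
  have hhalf : (0 : ℝ) < 1 / 2 := by norm_num
  have hPQ1 : Pr < Qr := by linarith only [hPQ, hφu]
  have hδs : 0 < δ / (16 * (T + 2)) := by positivity
  obtain ⟨ef₀, hef₀, Hfar⟩ := far_ev hpos hfar hw1 hw11 hηr hhalf hδ4
  have Hfree := free_ev hpos (hrdb 0 (by omega)) hattb hbw1 hw1x hx'1 hpf0 hfree hηr hhalf hδ4
  have Hsep := sep_ev hpos hact1 ha hPQ1 hδs hhalf x'
  have Hhx := hx_ev hpos hattx hN0x hhalf
  have Htime := Pool.VG83.bas_ev (Pool.NS95.time_cls X.lad.tm hδ4) hhalf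
  have Hgd := gd_cls htm hpos hch hs.le hθ0 hη0 v0 (fun j hj => (hvs j hj).1) hstep hl0 hla
  intro h hh
  obtain ⟨e₀, he₀⟩ : ∃ e₀ : ℝ, e₀ = min (θ / 2) ef₀ := ⟨_, rfl⟩
  have he00 : 0 < e₀ := by rw [he₀]; exact lt_min (half_pos hθ0) hef₀
  have he01 : e₀ ≤ θ / 2 := by rw [he₀]; exact min_le_left _ _
  have he02 : e₀ ≤ ef₀ := by rw [he₀]; exact min_le_right _ _
  refine ⟨e₀, he00, fun K => ?_⟩
  have Hlab := lab_ev (S := S) (c := c) (f := f) (N := N) (sn := sn) (ε := e * u) v0 hv1 hθ0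
    (by linarith only [heθ1, heu]) (fun l hl => ⟨(hbl l hl).1, (hbl l hl).2.1⟩)
    (fun j hj => hlb (v j) (hv j hj).1 (hv j hj).2.1 ((hv j hj).2.2.trans hxΛ)) (Nn := Nn) he01 K
  obtain ⟨J₁, hJ₁⟩ := E_big (a := φ₁ * u) (C := 3) hφu
  obtain ⟨J₂, hJ₂⟩ := exists_nat_ge (3 / u)
  obtain ⟨J₃, hJ₃⟩ := exists_nat_ge ((Real.log 2 + 8 * (2 * (f : ℝ) + 4)) / (δ * u / 8))
  obtain ⟨J₄, hJ₄⟩ := exists_nat_ge (((f : ℝ) + 1) * Real.log 5 / (δ * u / 100))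
  obtain ⟨J₅, hJ₅⟩ := exists_nat_ge (Real.log 7 / (δ * u / 400))
  refine Bas.mono (J₁ + J₂ + J₃ + J₄ + J₅ + 1) ((((Hgd.and Hlab).and (Hfree.and (Hfar 0))).and
    ((Hsep.and Hhx).and Htime)).and (pos_bas hpos)) ?_
  rintro J hJ F A ⟨⟨⟨⟨Hgd, Hlab⟩, Hfree, Hfar⟩, ⟨Hsep, Hhx⟩, Htime⟩, hA⟩ uu huu
  have hJ0 : (0 : ℝ) ≤ J := Nat.cast_nonneg J
  have cast : ∀ k : ℕ, k ≤ J₁ + J₂ + J₃ + J₄ + J₅ → (k : ℝ) ≤ J := fun k hk => by
    exact_mod_cast (show k ≤ J by omega)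
  have c1 : (3 : ℝ) ≤ 2 ^ (φ₁ * u * J) := hJ₁ J (by omega)
  have c2 : 3 ≤ u * J := by
    have h2 := hJ₂.trans (cast J₂ (by omega))
    rw [div_le_iff₀ hu] at h2
    linarith only [h2]
  have c3 : Real.log 2 + 8 * (2 * (f : ℝ) + 4) ≤ δ * u / 8 * J := by
    have h2 := hJ₃.trans (cast J₃ (by omega))
    rw [div_le_iff₀ (by positivity)] at h2
    linarith only [h2]
  have c4 : ((f : ℝ) + 1) * Real.log 5 ≤ δ * u / 100 * J := by
    have h2 := hJ₄.trans (cast J₄ (by omega))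
    rw [div_le_iff₀ (by positivity)] at h2
    linarith only [h2]
  have c5 : Real.log 7 ≤ δ * u / 400 * J := by
    have h2 := hJ₅.trans (cast J₅ (by omega))
    rw [div_le_iff₀ (by positivity)] at h2
    linarith only [h2]
  have hδuJ : 0 ≤ δ * u * J := by positivity
  -- the good part
  obtain ⟨t, t', P, ht, hP, hcode, hz, hQ⟩ := Hlab uu huu
  obtain ⟨Bad, hBad, hcut, hdif⟩ := Hgd t t' P ht hP
  have hBA : Sub (fun ω => A ω ∧ ¬ Bad ω) A := fun ω hω => hω.1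
  have hBm : 1 / 2 * Pe F.p A ≤ Pe F.p (fun ω => A ω ∧ ¬ Bad ω) :=
    (mul_le_mul_of_nonneg_right (by linarith only [hη2]) hA.le).trans (pe_part hA hBad)
  have hB : 0 < Pe F.p (fun ω => A ω ∧ ¬ Bad ω) := lt_of_lt_of_le (by positivity) hBm
  -- the digits
  have hwJ0 : 0 ≤ (w₁ : ℝ) * J := mul_nonneg hw10 hJ0
  have hpJ0 : 0 ≤ (pf : ℝ) * J := mul_nonneg hpf0 hJ0
  have hQJ0 : 0 ≤ Qr * J := mul_nonneg hQr0 hJ0
  have hPJ0 : 0 ≤ Pr * J := mul_nonneg hPr0 hJ0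
  have gf1 := Nat.floor_le hwJ0
  have gf2 := Nat.lt_floor_add_one ((w₁ : ℝ) * J)
  have gf3 := Nat.floor_le hpJ0
  have gf4 := Nat.lt_floor_add_one ((pf : ℝ) * J)
  have gf5 := Nat.floor_le hQJ0
  have gf6 := Nat.lt_floor_add_one (Qr * J)
  have gf7 := Nat.floor_le hPJ0
  have gf8 := Nat.lt_floor_add_one (Pr * J)
  have hQMQ : ⌊Qr * J⌋₊ ≤ ⌊(pf : ℝ) * J⌋₊ :=
    Nat.floor_le_floor (mul_le_mul_of_nonneg_right hpfQ hJ0)
  have hnQ : ⌊Pr * J⌋₊ ≤ ⌊Qr * J⌋₊ :=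
    Nat.floor_le_floor (mul_le_mul_of_nonneg_right hPQ1.le hJ0)
  obtain ⟨M, hM⟩ : ∃ M, M + ⌊Qr * J⌋₊ = ⌊(pf : ℝ) * J⌋₊ :=
    ⟨⌊(pf : ℝ) * J⌋₊ - ⌊Qr * J⌋₊, by omega⟩
  have hMr : (M : ℝ) + ⌊Qr * J⌋₊ = ⌊(pf : ℝ) * J⌋₊ := by exact_mod_cast hM
  have hM0 : (0 : ℝ) ≤ M := Nat.cast_nonneg M
  have k1 : ((w₁ : ℝ) + pf) * J ≤ (sn 0 w + (T + 3) * u) * J :=
    mul_le_mul_of_nonneg_right hwpf hJ0
  have k2 : (sn 0 w + (T + 3) * u) * J ≤ 1 * J := mul_le_mul_of_nonneg_right hs01 hJ0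
  have k3 : (sn 0 w + (T + 1) * u) * J ≤ ((w₁ : ℝ) + pf) * J :=
    mul_le_mul_of_nonneg_right hwpf1 hJ0
  have k4 : (pf : ℝ) * J ≤ (a0 + (T + 2) * u) * J := mul_le_mul_of_nonneg_right hpf2.le hJ0
  have k5 : Qr * J = (a0 + (1 + 6 * φ₁) * u) * J := by rw [hQr]
  have k6 : Qr * J - Pr * J = φ₁ * u * J := by rw [← sub_mul, hPQ]
  have hφuJ : 0 ≤ φ₁ * u * J := mul_nonneg hφu.le hJ0
  have hsumJ : ⌊(w₁ : ℝ) * J⌋₊ + M + ⌊Qr * J⌋₊ ≤ J := by
    have : ((⌊(w₁ : ℝ) * J⌋₊ + M + ⌊Qr * J⌋₊ : ℕ) : ℝ) ≤ J := by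
      push_cast
      linarith only [gf1, gf3, hMr, k1, k2]
    exact_mod_cast this
  have hWM : ⌊(w₁ : ℝ) * J⌋₊ + M ≤ J := by omega
  have hHt := Htime _ hBA hBm
  have hHf := Hfree _ hBA hBm
  rw [← hM] at hHf
  have main : CH (Pool.Agent.H49.Ent.cond F.p (fun ω => A ω ∧ ¬ Bad ω) True) uu
      (fun ω => (cR F A (w₁ : ℝ) ω, yQ ((range 1).image c) Pn ln J F ω)) ≤
      5 * (δ * u / 40 * J) + (2 * ((f : ℝ) + 1) + 2) * (((⌊Qr * J⌋₊ - ⌊Pr * J⌋₊ + 1 : ℕ) : ℝ) + 6) +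
        δ / (16 * (T + 2)) * ((M + 2) * Real.log 2) := by
    refine near_smp (Nf := Nf) (NX := ⌊(w₁ : ℝ) * J⌋₊ + M + ⌊Qr * J⌋₊) (Pf := sn 0 w + T * u)
      (lf := sn 0 w - w + T * u) (e₁ := δ * u / 400 * J) (e₂ := (e * u + δ * u / 400) * J)
      (e₄ := Real.log 7) (ef := (df + δ * u / 400) * J) ht v0 (fun j hj => (hv j hj).2.2) hx'1 hw1
      hw1x hB hcut ?_ (fun l hl => (hNn l hl).trans (hNf l hl)) hcode hz hWM hnQ le_rfl le_rfl ?_
      ?_ ?_ ?_ ?_ ?_ (fun R' R hR' => hHt.2.2 _ (by omega) R' R hR') hHf ?_ ?_ ?_ ?_ ?_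
    · -- the comparison
      intro ω ω' h1 h2 h3 h4 h5 h6 l hl
      have h7 := hdif ω ω' h1 h2 h3 h4 h5 l hl
      have h8 := hNn l hl
      have h9 : |F.d ω' (c 0) - F.d ω (c 0)| ≤ 1 / 2 ^ ⌊Pr * J⌋₊ :=
        Pool.NS95.fl_eq (show ⌊(2 : ℝ) ^ ⌊Pr * J⌋₊ * F.d ω' (c 0)⌋ =
          ⌊(2 : ℝ) ^ ⌊Pr * J⌋₊ * F.d ω (c 0)⌋ from h6.symm)
      refine hgd_of h9 gf8.le h7 (y := φ₁ * u) ?_ ?_ c1
      · rw [vN, hθf]
        have h10 : (R - 1) * u ≤ x' - w := by linarith only [hxa]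
        have h11 := mul_le_mul_of_nonneg_left h10 hs1.le
        have h12 := mul_le_mul_of_nonneg_right hRs hu.le
        linarith only [h8, h11, h12, hφu16, hu]
      · rw [hθf]
        linarith only [h8, hPr, ha0, hφu]
    · -- far positions
      refine Nat.floor_le_of_le ?_
      push_cast
      linarith only [gf2, gf4, hMr, k3, c2]
    · rw [hM]
      refine Nat.floor_le_floor (mul_le_mul_of_nonneg_right ?_ hJ0)
      linarith only [hpf1, ha0, hu]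
    · refine Nat.le_floor ?_
      push_cast
      have h1 : ((w₁ : ℝ) + Qr) * J ≤ Pn * J := by
        refine mul_le_mul_of_nonneg_right ?_ hJ0
        linarith only [hw2, hQr, ha0, hPn, hφu]
      linarith only [gf1, gf5, h1]
    · refine Nat.floor_le_floor (mul_le_mul_of_nonneg_right ?_ hJ0)
      linarith only [hPr, ha0, hln, hφu]
    · exact Hfar _ hBA hBm _ ((qVel (f + 2) c 1 (f + 1) 1 bl pl Nf).sub hBA (hQ Nf 0 ef₀ he02))
    · refine le_trans ?_ (hHt.2.1 _ M hWM)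
      linarith only [hδuJ]
    · refine Hhx _ hBA hBm _ ?_
      push_cast
      linarith only [gf1, gf3, hMr, k1]
    · linarith only [hδuJ]
    · have h1 := mul_le_mul_of_nonneg_right heδ hJ0
      linarith only [h1, hδuJ, c5]
    · have h1 := mul_le_mul_of_nonneg_right hdf hJ0
      linarith only [h1, hδuJ, c4]
    · exact Hsep _ hBA hBm _ M _ hsumJ
  -- the whole
  obtain ⟨E, hE⟩ : ∃ E : ℝ, E = 5 * (δ * u / 40 * J) + (2 * ((f : ℝ) + 1) + 2) *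
    (((⌊Qr * J⌋₊ - ⌊Pr * J⌋₊ + 1 : ℕ) : ℝ) + 6) +
      δ / (16 * (T + 2)) * ((M + 2) * Real.log 2) := ⟨_, rfl⟩
  rw [← hE] at main
  have hE0 : 0 ≤ E := by
    rw [hE]
    positivity
  have hcnt : (cnt F.p uu A : ℝ) ≤ Real.exp (Mu * J) := by
    rw [hMu]
    refine cnt_seq F.p (fun l hl => ?_) hz
    exact cnt_cfl (by omega) fun ω hω => hcode ω hω l (by omega)
  have hfin := few_up F.isLaw hA hBad (mul_nonneg hMu0 hJ0) hE0 hcnt main
  refine ⟨_, cR F A w₁, Pool.VG83.cl_cR F A w₁, hfin.trans ?_⟩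
  have r1 : ((⌊Qr * J⌋₊ - ⌊Pr * J⌋₊ + 1 : ℕ) : ℝ) ≤ φ₁ * u * J + 2 := by
    rw [Nat.cast_add, Nat.cast_sub hnQ, Nat.cast_one]
    linarith only [gf5, gf8, k6]
  have r2 : (2 * ((f : ℝ) + 1) + 2) * (((⌊Qr * J⌋₊ - ⌊Pr * J⌋₊ + 1 : ℕ) : ℝ) + 6) ≤
      (2 * ((f : ℝ) + 1) + 2) * (φ₁ * u * J + 8) :=
    mul_le_mul_of_nonneg_left (by linarith only [r1]) (by positivity)
  have r3 : 20 * ((f : ℝ) + 2) * φ₁ * (u * J) ≤ δ * (u * J) :=
    mul_le_mul_of_nonneg_right hφδ (by positivity)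
  have r4 : (M : ℝ) + 2 ≤ (T + 2) * (u * J) := by
    linarith only [hMr, gf3, gf6, k4, k5, c2, hφuJ]
  have r5 : ((M : ℝ) + 2) * Real.log 2 ≤ (T + 2) * (u * J) := by
    refine (mul_le_mul r4 hl21 hl2.le (by positivity)).trans (le_of_eq (mul_one _))
  have r6 : δ / (16 * (T + 2)) * ((M + 2) * Real.log 2) ≤ δ * u / 16 * J := by
    refine (mul_le_mul_of_nonneg_left r5 hδs.le).trans (le_of_eq ?_)
    field_simp
  have r7 : η * (Mu * J) ≤ δ * u / 16 * J := by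
    rw [← mul_assoc]
    exact mul_le_mul_of_nonneg_right hηM hJ0
  have r8 : 0 ≤ h * J := by positivity
  rw [hE]
  linarith only [r2, r3, r6, r7, r8, c3, hδuJ]

/-- **Near-dead from far-dead** in a box of the unit `u`. `T`: the depth of the far path; `φ₁`: the
margin of the near digits, `sn 0 w - w + (1 + 8 φ₁) u` for the velocity of `c 0`; `e`: the errors;
`a`: the activity of `c 0`. The codes are given the record of the window `w₁`. -/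
def NearS : Prop := ∀ (f : ℕ) (s hr δ : ℝ), 1 < s → 0 < δ → ∃ δ₁ : ℝ, 0 < δ₁ ∧
  ∀ T : ℝ, 1 ≤ T → ∃ φ₀ Λ : ℝ, 0 < φ₀ ∧ 1 ≤ Λ ∧ ∀ φ₁ : ℝ, 0 < φ₁ → φ₁ ≤ φ₀ → ∃ e : ℝ, 0 < e ∧
  ∀ {D : ℕ} {S : PCl (f + 2)} {c : ℕ → Fin (f + 2)} {sn sp : ℕ → ℝ → ℝ} {G : Set ℝ}
    {b o w u φ' df a : ℝ} {lam : ℝ → ℝ} {bl pl Nf Nn : ℕ → ℝ},
    S.Ne → (∀ (τ : ℝ) (J : ℕ) (F : Fam (f + 2) J) (A : F.Ω → Prop), S.St τ J F A →
      0 < Pe F.p A) →
    BoxT S c 1 f D sn sp G s hr b o w u Λ φ' e lam → φ' ≤ e * u →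
    -- affine labels at `w` (the codes) and at all windows of the box
    (∀ l ≤ f, bl l ≤ w ∧ sn (1 + l) w - e * u ≤ pl l ∧
      AffL S ((range (1 + l)).image c) (c (1 + l)) (bl l) (pl l)) →
    (∀ v ∈ G, w ≤ v → v ≤ w + Λ * u → ∃ bl' pl' : ℕ → ℝ, ∀ l ≤ f, bl' l ≤ v ∧
      sn (1 + l) v - e * u ≤ pl' l ∧
      AffL S ((range (1 + l)).image c) (c (1 + l)) (bl' l) (pl' l)) →
    -- the activity of `c 0` behind the near digits
    0 < a → (∀ P Q : ℝ, sn 0 w - w + u ≤ P → P + φ₁ * u ≤ Q → Q ≤ sn 0 w - w + 2 * u →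
      ActI S (c 0) a P Q) →
    -- far
    df ≤ δ₁ * u → (∀ l ≤ f, sn (1 + l) w - w + (1 + 2 * φ₁) * u ≤ Nf l) →
    FewN S (fun J F => ptr F J) (vg w) (yQ ((range 1).image c) (sn 0 w + T * u)
      (sn 0 w - w + T * u)) (qVel (f + 2) c 1 (f + 1) 1 bl pl Nf) df →
    -- near
    (∀ l ≤ f, Nn l ≤ sn (1 + l) w - w + (1 + 2 * φ₁) * u) →
    ∀ (w₁ : ℚ) (Pn ln : ℝ), w ≤ w₁ → (w₁ : ℝ) ≤ w + φ₁ * u →
      sn 0 w + (1 + 8 * φ₁) * u ≤ Pn → sn 0 w - w + (1 + 8 * φ₁) * u ≤ ln →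
    FewN S (fun J F => ptr F J) (vg (w₁ : ℝ)) (yQ ((range 1).image c) Pn ln)
      (qVel (f + 2) c 1 (f + 1) 1 bl pl Nn) (δ * u)

/-- **Near-dead from far-dead.** -/
theorem nearS : NearS := by
  intro f s hr δ hs hδ
  refine ⟨δ / 80, by positivity, fun T hT => ?_⟩
  have hs1 : 0 < s - 1 := by linarith
  have hs0 : 0 < s := by linarith
  have h6 : 0 < 6 / (s - 1) := by positivity
  have hf0 : (0 : ℝ) ≤ f := Nat.cast_nonneg f
  refine ⟨min (1 / 16) (δ / (20 * ((f : ℝ) + 2))), T + 6 + 6 / (s - 1) + 4,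
    lt_min (by norm_num) (by positivity), by linarith, fun φ₁ hφ₁ hφ => ?_⟩
  have h1 : φ₁ ≤ 1 / 16 := hφ.trans (min_le_left _ _)
  have h2 : 20 * ((f : ℝ) + 2) * φ₁ ≤ δ := by
    have h3 := hφ.trans (min_le_right _ _)
    rw [le_div_iff₀ (by positivity)] at h3
    linarith
  obtain ⟨e, he⟩ : ∃ e : ℝ, e = min (φ₁ / (16 * s * ((f : ℝ) + 7) ^ 2)) (δ / 400) := ⟨_, rfl⟩
  have he0 : 0 < e := by
    rw [he]
    exact lt_min (by positivity) (by positivity)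
  have he1 : 16 * s * ((f : ℝ) + 7) ^ 2 * e ≤ φ₁ := by
    have h3 : e ≤ φ₁ / (16 * s * ((f : ℝ) + 7) ^ 2) := by rw [he]; exact min_le_left _ _
    rw [le_div_iff₀ (by positivity)] at h3
    linarith
  have he2 : 400 * e ≤ δ := by
    have h3 : e ≤ δ / 400 := by rw [he]; exact min_le_right _ _
    linarith
  refine ⟨e, he0, ?_⟩
  intro D S c sn sp G b o w u φ' df a lam bl pl Nf Nn hS hpos X hφ' hbl hlb ha hact hdf hNf hfar
    hNn w₁ Pn ln hw1 hw2 hPn hln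
  exact near_cls hs hδ hT hφ₁ h1 h2 rfl le_rfl he0 he1 he2 hS hpos X hφ' hbl hlb ha hact hdf hNf
    hfar hNn w₁ Pn ln hw1 hw2 hPn hln

end Pool.NS71
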