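import Pool.Agent.H91.T4.Fv

/-!
# The own velocities over the affine labels of a chain of windows

`jet_aff`, `jet_base`: the jet of order one of an affine polynomial. `gd_el`: the coefficients after
the elimination of the targets. `gd_two`: the jets of two samples. `gd_rec`: the recursion over the
windows.
-/

set_option autoImplicit false

namespace Pool.NS71

open Finset Real MvPolynomial
open Pool.Agent.H49.Ent Pool.Agent.H32.Dense Pool.STK Pool.KA Pool.KSAT Pool.K2S Pool.PB Pool.GEN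
open Pool.S6C Pool.RCD Pool.LA91 Pool.FVL91

variable {m J : ℕ}

/-- The jet of order one of an affine polynomial. -/
theorem jet_aff {H : MvPolynomial (Option (Fin m)) ℝ} (h : H.totalDegree ≤ 1)
    (b v : Option (Fin m) → ℝ) : jet 1 H b v = ∑ o, coeff (Finsupp.single o 1) H * v o := by
  obtain ⟨s, hs⟩ : ∃ s : ℝ, s = ∑ o, coeff (Finsupp.single o 1) H * v o := ⟨_, rfl⟩
  obtain ⟨a, ha⟩ : ∃ a : ℝ, a = eval b H := ⟨_, rfl⟩
  have e : aeval (lp b v) H = Polynomial.C a + Polynomial.C s * Polynomial.X := by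
    refine Polynomial.funext fun t => ?_
    rw [eval_alp, ha, hs, eval_one h, eval_one h]
    simp only [Polynomial.eval_add, Polynomial.eval_mul, Polynomial.eval_C, Polynomial.eval_X]
    rw [Finset.sum_mul, add_assoc, ← Finset.sum_add_distrib]
    congr 1
    refine Finset.sum_congr rfl fun o _ => ?_
    ring
  rw [← hs]
  unfold jet
  rw [e]
  simp

theorem coe1_zero {c : ℕ → Fin m} {E : MvPolynomial (Option (Fin m)) ℝ} (h : E.totalDegree ≤ 1)
    (hd : DepN c 1 E) {o : Fin m} (ho : o ≠ c 0) : coe1 o E = 0 := by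
  have h1 := eval_upd h o (x := fun _ => 0) (x' := Function.update (fun _ => 0) (some o) 1)
    fun p hp => by rw [Function.update_of_ne hp]
  have h2 : eval (Function.update (fun _ => (0 : ℝ)) (some o) 1) E = eval (fun _ => 0) E := by
    refine hd _ _ (by rw [Function.update_of_ne (by simp)]) fun l hl => ?_
    have hl0 : l = 0 := by omega
    rw [hl0, Function.update_of_ne (fun e => ho (Option.some.inj e).symm)]
  rw [h2, sub_self, Function.update_self, sub_zero, mul_one] at h1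
  exact h1.symm

/-- **The jets of two samples**, for an affine polynomial over the base. -/
theorem jet_base {c : ℕ → Fin m} {E : MvPolynomial (Option (Fin m)) ℝ} (h : E.totalDegree ≤ 1)
    (hd : DepN c 1 E) {b b' v v' : Option (Fin m) → ℝ} (hv : v none = v' none) :
    jet 1 E b' v' - jet 1 E b v = coe1 (c 0) E * (v' (some (c 0)) - v (some (c 0))) := by
  rw [jet_aff h, jet_aff h, ← Finset.sum_sub_distrib, Fintype.sum_option,
    Finset.sum_eq_single (c 0)]
  · rw [hv]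
    unfold coe1
    ring
  · intro o _ ho
    have h1 := coe1_zero h hd ho
    unfold coe1 at h1
    rw [h1]
    ring
  · intro h
    exact (h (mem_univ _)).elim

/-- The coefficient of the base. -/
theorem coe1_le {F : Fam m J} {ω : F.Ω} {c : ℕ → Fin m} {U : ℕ} {δ : ℕ → ℝ}
    {g : ℕ → MvPolynomial (Option (Fin m)) ℝ} {E : MvPolynomial (Option (Fin m)) ℝ}
    (h : E.totalDegree ≤ 1) (hg : DepN c 0 (g 0)) (hδ : 0 ≤ δ 0) {B : ℝ}
    (hB : ∀ x, NB F c 0 1 U δ g ω x → |eval x E| ≤ B) : |coe1 (c 0) E| * δ 0 ≤ 2 * B := by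
  obtain ⟨b₀, hb₀⟩ : ∃ b₀ : Option (Fin m) → ℝ, b₀ = fun _ => F.t ω := ⟨_, rfl⟩
  have key : ∀ t : ℝ, |t| ≤ δ 0 →
      NB F c 0 1 U δ g ω (Function.update b₀ (some (c 0)) (eval b₀ (g 0) + t)) := by
    intro t ht
    refine ⟨?_, fun l hl => absurd hl (Nat.not_lt_zero l), fun i _ hi => ?_⟩
    · rw [Function.update_of_ne (by simp), hb₀, sub_self, abs_zero]
      positivity
    · have hi0 : i = 0 := by omega
      have e1 : eval (Function.update b₀ (some (c 0)) (eval b₀ (g 0) + t)) (g 0) =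
          eval b₀ (g 0) := hg _ _ (Function.update_of_ne (by simp) _ _)
        fun l hl => absurd hl (Nat.not_lt_zero l)
      rw [hi0, Function.update_self, e1, add_sub_cancel_left]
      exact ht
  have h1 := hB _ (key 0 (by rw [abs_zero]; exact hδ))
  have h2 := hB _ (key (δ 0) (by rw [abs_of_nonneg hδ]))
  obtain ⟨x₁, hx₁⟩ : ∃ x, x = Function.update b₀ (some (c 0)) (eval b₀ (g 0) + 0) := ⟨_, rfl⟩
  obtain ⟨x₂, hx₂⟩ : ∃ x, x = Function.update b₀ (some (c 0)) (eval b₀ (g 0) + δ 0) := ⟨_, rfl⟩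
  rw [← hx₁] at h1
  rw [← hx₂] at h2
  have h3 := eval_upd h (c 0) (x := x₁) (x' := x₂) fun p hp => by
    rw [hx₁, hx₂, Function.update_of_ne hp, Function.update_of_ne hp]
  have h4 : x₂ (some (c 0)) - x₁ (some (c 0)) = δ 0 := by
    rw [hx₁, hx₂, Function.update_self, Function.update_self]
    ring
  rw [h4] at h3
  have h5 : |coe1 (c 0) E| * δ 0 = |eval x₂ E - eval x₁ E| := by
    rw [h3, abs_mul, abs_of_nonneg hδ]
  rw [h5]
  refine (abs_sub _ _).trans ?_
  linarith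

/-- **The coefficients after the elimination of the targets** `c 1, …, c n`. -/
theorem gd_el {F : Fam m J} {ω : F.Ω} {c : ℕ → Fin m} {U : ℕ}
    {a g : ℕ → MvPolynomial (Option (Fin m)) ℝ} {δ μ : ℕ → ℝ} {L : ℝ} (hL : 1 ≤ L)
    (n : ℕ) (hc : Set.InjOn c (Set.Iio (1 + n)))
    (ha : ∀ l, 1 ≤ l → l < 1 + n → (a l).totalDegree ≤ 1 ∧ DepN c l (a l))
    (hg : ∀ l, l < 1 + n → DepN c l (g l)) (hδ : ∀ l, l < 1 + n → 0 < δ l)
    (hag : ∀ l, 1 ≤ l → l < 1 + n → ∀ x, NB F c 0 l U δ g ω x → |eval x (a l - g l)| ≤ μ l)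
    (hμ : ∀ l, 1 ≤ l → l < 1 + n → 1 + 2 * (μ l / δ l) ≤ L)
    (hne : ∃ x, NB F c 0 (1 + n) U δ g ω x)
    (H : MvPolynomial (Option (Fin m)) ℝ) (hH : H.totalDegree ≤ 1) (hd : DepN c (1 + n) H)
    {B : ℝ} (hB : 0 ≤ B) (hHB : ∀ x, NB F c 0 (1 + n) U δ g ω x → |eval x H| ≤ B) :
    (elr c a 1 n H).totalDegree ≤ 1 ∧ DepN c 1 (elr c a 1 n H) ∧
      |coe1 (c 0) (elr c a 1 n H)| * δ 0 ≤ 2 * (B * L ^ n) ∧
      ∀ l < n, |bet c a 1 n H l| * δ (1 + l) ≤ 2 * (B * L ^ n) := by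
  obtain ⟨h1, h2, h3, h4⟩ := el_pt (r₀ := 0) (k₀ := 1) (Nat.zero_le 1) hL n hc ha
    (fun l _ hl => hg l hl) (fun l _ hl => hδ l hl) hag hμ hne H hH hd hB hHB
  exact ⟨h1, h2, coe1_le h1 (hg 0 (by omega)) (hδ 0 (by omega)).le h3, h4⟩

/-- **The jets of two samples.** -/
theorem gd_two {F : Fam m J} {ω ω' : F.Ω} {c : ℕ → Fin m}
    {a : ℕ → MvPolynomial (Option (Fin m)) ℝ} {n : ℕ} {H : MvPolynomial (Option (Fin m)) ℝ}
    (h1 : (elr c a 1 n H).totalDegree ≤ 1) (h2 : DepN c 1 (elr c a 1 n H)) :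
    jet 1 H (bt F ω') (bd F ω') - jet 1 H (bt F ω) (bd F ω) =
      coe1 (c 0) (elr c a 1 n H) * (F.d ω' (c 0) - F.d ω (c 0)) +
      ∑ l ∈ range n, bet c a 1 n H l *
        (ojet F (c (1 + l)) 1 (a (1 + l)) ω' - ojet F (c (1 + l)) 1 (a (1 + l)) ω) := by
  rw [jet_elr c a 1 1 (bt F ω') (bd F ω') n H, jet_elr c a 1 1 (bt F ω) (bd F ω) n H,
    add_sub_add_comm, jet_base h1 h2 (by rfl), ← Finset.sum_sub_distrib]
  congr 1
  refine Finset.sum_congr rfl fun l _ => ?_
  unfold ojet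
  ring

/-- **The recursion over the windows.** -/
theorem gd_rec {N f : ℕ} {U : ℕ → ℕ → ℝ} {b : ℕ → ℝ} {τ X : ℝ} (hb : ∀ l, 0 < b l) (hτ : 1 ≤ τ)
    (hX : 0 ≤ X) (h0 : ∀ l ≤ f, |U N l| ≤ b l * X)
    (hs : ∀ j < N, ∀ l ≤ f, |U j l| ≤ |U (j + 1) l| + b l * τ * X +
      ∑ i ∈ range l, b l / b i * τ * |U (j + 1) i|) :
    ∀ k ≤ N, ∀ l ≤ f, |U (N - k) l| ≤ ((l : ℝ) + 2) ^ k * τ ^ (l + 1) * (b l * X) := by
  have hτ0 : 0 < τ := by linarith
  intro k
  induction k with
  | zero =>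
    intro _ l hl
    rw [Nat.sub_zero, pow_zero, one_mul]
    refine (h0 l hl).trans ?_
    have h1 : 1 ≤ τ ^ (l + 1) := one_le_pow₀ hτ
    have h2 : 0 ≤ b l * X := mul_nonneg (hb l).le hX
    nlinarith
  | succ k ih =>
    intro hk l hl
    have e1 : N - (k + 1) + 1 = N - k := by omega
    have h1 := hs (N - (k + 1)) (by omega) l hl
    rw [e1] at h1
    have h2 := ih (by omega) l hl
    have h3 : ∑ i ∈ range l, b l / b i * τ * |U (N - k) i| ≤
        ∑ _i ∈ range l, ((l : ℝ) + 2) ^ k * τ ^ (l + 1) * (b l * X) := by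
      refine Finset.sum_le_sum fun i hi => ?_
      have hi' := Finset.mem_range.1 hi
      have h4 := ih (by omega) i (by omega)
      have hbi := hb i
      have hbl := hb l
      calc b l / b i * τ * |U (N - k) i| ≤
          b l / b i * τ * (((i : ℝ) + 2) ^ k * τ ^ (i + 1) * (b i * X)) :=
            mul_le_mul_of_nonneg_left h4 (by positivity)
        _ = ((i : ℝ) + 2) ^ k * τ ^ (i + 2) * (b l * X) := by
            rw [pow_succ τ (i + 1)]
            field_simp
        _ ≤ _ := by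
            refine mul_le_mul_of_nonneg_right (mul_le_mul ?_ (pow_le_pow_right₀ hτ (by omega))
              (by positivity) (by positivity)) (mul_nonneg hbl.le hX)
            have : (i : ℝ) ≤ l := by exact_mod_cast hi'.le
            exact pow_le_pow_left₀ (by positivity) (by linarith) k
    rw [Finset.sum_const, Finset.card_range, nsmul_eq_mul] at h3
    have h5 : b l * τ * X ≤ ((l : ℝ) + 2) ^ k * τ ^ (l + 1) * (b l * X) := by
      have h6 : (1 : ℝ) ≤ ((l : ℝ) + 2) ^ k := one_le_pow₀ (by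
        have : (0 : ℝ) ≤ l := Nat.cast_nonneg l
        linarith)
      have h7 : τ ≤ τ ^ (l + 1) := by
        calc τ = τ ^ 1 := (pow_one τ).symm
          _ ≤ τ ^ (l + 1) := pow_le_pow_right₀ hτ (by omega)
      have h8 : 0 ≤ b l * X := mul_nonneg (hb l).le hX
      calc b l * τ * X = 1 * τ * (b l * X) := by ring
        _ ≤ _ := mul_le_mul_of_nonneg_right (mul_le_mul h6 h7 hτ0.le (by positivity)) h8
    have e2 : ((l : ℝ) + 2) ^ (k + 1) * τ ^ (l + 1) * (b l * X) =
        ((l : ℝ) + 2) ^ k * τ ^ (l + 1) * (b l * X) +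
        ((l : ℝ) + 2) ^ k * τ ^ (l + 1) * (b l * X) +
        l * (((l : ℝ) + 2) ^ k * τ ^ (l + 1) * (b l * X)) := by
      rw [pow_succ]
      ring
    rw [e2]
    linarith

end Pool.NS71
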