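import Pool.Agent.H71.NS.Ns0

/-!
# One step: the affine labels of two windows on the charts of the later one

`PLb`: an affine label as a polynomial valued closed function. `st_cls`: off a small event the
difference of two affine labels of a target has natural coefficients over the affine labels of the
later window.
-/

set_option autoImplicit false

namespace Pool.NS71

open Finset Real MvPolynomial
open Pool.Agent.H49.Ent Pool.Agent.H32.Dense Pool.STK Pool.KA Pool.KSAT Pool.K2S Pool.PB Pool.GEN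
open Pool.S6C Pool.RCD Pool.LA91 Pool.FVL91
open Pool.GRD (LbP)
open Pool.BFL (Pb)
open Pool.LIV (Pb_mono25 Pb_or25 Pb_ex25)
open Pool.GRW (xr xr_near)

variable {m J : ℕ}

/-- **An affine closed label** of the place `1 + l`, a polynomial valued function. -/
structure PLb (F : Fam m J) (c : ℕ → Fin m) (l w P : ℕ) (A : F.Ω → Prop)
    (t : PtT F → MvPolynomial (Option (Fin m)) ℝ) (t' : LnT F → MvPolynomial (Option (Fin m)) ℝ) :
    Prop where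
  lb : LbP F ((range (1 + l)).image c) (c (1 + l)) 1 J w P A t t'
    (nfp 1 ((range (1 + l)).image c))
  fx : ∀ s, nfp 1 ((range (1 + l)).image c) (t' s) = t' s

namespace PLb

variable {F : Fam m J} {c : ℕ → Fin m} {l w P : ℕ} {A B : F.Ω → Prop}
  {t : PtT F → MvPolynomial (Option (Fin m)) ℝ} {t' : LnT F → MvPolynomial (Option (Fin m)) ℝ}

theorem sub (h : PLb F c l w P A t t') (hB : Sub B A) : PLb F c l w P B t t' :=
  ⟨h.lb.sub hB, h.fx⟩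

theorem deg (h : PLb F c l w P A t t') (s : LnT F) : (t' s).totalDegree ≤ 1 := by
  rw [← h.fx s]
  exact h.lb.deg _

theorem dep (h : PLb F c l w P A t t') (s : LnT F) : DepN c (1 + l) (t' s) := by
  rw [← h.fx s]
  refine fun x x' e1 e2 => h.lb.dep _ x x' e1 fun i hi => ?_
  obtain ⟨i', hi', rfl⟩ := mem_image.1 hi
  exact e2 i' (mem_range.1 hi')

theorem cls (h : PLb F c l w P A t t') (ω : F.Ω) (hω : A ω) : t (ptr F J ω) = t' (slam F w ω) :=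
  h.lb.cls ω hω

theorem win (h : PLb F c l w P A t t') {w' : ℕ} (hw : w ≤ w') (hw' : w' ≤ J) :
    PLb F c l w' P A t (fun s => t' (s.1, s.2.1, s.2.2 / 2 ^ (w' - w))) :=
  ⟨h.lb.win hw hw', fun _ => h.fx _⟩

theorem mono (h : PLb F c l w P A t t') {P' : ℕ} (hP : P' ≤ P) : PLb F c l w P' A t t' :=
  ⟨h.lb.mono (Finset.Subset.refl _) le_rfl hP, h.fx⟩

theorem of {V : Type} {z : PtT F → V} {z' : LnT F → V} {G : V → MvPolynomial (Option (Fin m)) ℝ}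
    (h : LbP F ((range (1 + l)).image c) (c (1 + l)) 1 J w P A z z' G) :
    PLb F c l w P A (fun x => G (z x)) (fun s => G (z' s)) :=
  ⟨(Pool.LA91.LbP.nfp h).1, fun s => (Pool.LA91.LbP.nfp h).2 _⟩

end PLb

theorem s_nonneg {S : PCl m} {c : ℕ → Fin m} {r : ℕ} {w u₀ u₁ : ℝ} {sn rd : ℕ → ℝ}
    (h : Chn S c 0 r w u₀ u₁ sn rd) {i : ℕ} (hi : i < r) : 0 ≤ sn i ∧ sn i < 1 :=
  h.s0 i (Nat.zero_le i) hi

/-- **The result of the elimination**: `n` targets, the size `Y` of the difference `H`. -/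
structure ElOK (c : ℕ → Fin m) (a : ℕ → MvPolynomial (Option (Fin m)) ℝ) (n : ℕ)
    (H : MvPolynomial (Option (Fin m)) ℝ) (x : ℕ → ℝ) (Y : ℝ) : Prop where
  deg : (elr c a 1 n H).totalDegree ≤ 1
  dep : DepN c 1 (elr c a 1 n H)
  co : |coe1 (c 0) (elr c a 1 n H)| ≤ x 0 * Y
  be : ∀ i < n, |bet c a 1 n H i| ≤ x (1 + i) * Y

/-- **One step.** -/
theorem st_cls {S : PCl m} {C₀ : ℝ} (htm : TmC S C₀) {c : ℕ → Fin m} {f : ℕ} {w u₁ θ : ℝ}
    {sn rd : ℕ → ℝ}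
    (hpos : ∀ (τ : ℝ) (J : ℕ) (F : Fam m J) (A : F.Ω → Prop), S.St τ J F A → 0 < Pe F.p A)
    (hch : Chn S c 0 (1 + f) w w u₁ sn rd) (hθ : 0 < θ) {η : ℝ} (hη : 0 < η) :
    Bas S (fun J F A => ∀ (t t₁ : ℕ → PtT F → MvPolynomial (Option (Fin m)) ℝ)
      (t' t₁' : ℕ → LnT F → MvPolynomial (Option (Fin m)) ℝ) (P P₁ : ℕ → ℕ),
      (∀ l ≤ f, PLb F c l ⌊w * J⌋₊ (P l) A (t l) (t' l)) →
      (∀ l ≤ f, PLb F c l ⌊w * J⌋₊ (P₁ l) A (t₁ l) (t₁' l)) →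
      (∀ l ≤ f, (sn (1 + l) - θ) * J ≤ P l + 1) →
      ∃ Bad : F.Ω → Prop, Pb (Pool.Agent.H49.Ent.cond F.p A True) Bad ≤ η ∧
        ∀ ω, A ω → ¬ Bad ω → ∀ l ≤ f,
          ElOK c (fun i => t' (i - 1) (slam F ⌊w * J⌋₊ ω)) l
            (t' l (slam F ⌊w * J⌋₊ ω) - t₁' l (slam F ⌊w * J⌋₊ ω))
            (fun i => 2 ^ ((sn i + ((f : ℝ) + 2) * θ) * J)) (1 / 2 ^ P l + 1 / 2 ^ P₁ l)) := by
  classical
  have hf0 : (0 : ℝ) ≤ f := Nat.cast_nonneg f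
  have hw0 := hch.w0
  have hw1 := hch.u0
  obtain ⟨ε, hε⟩ : ∃ ε : ℝ, ε = θ / (8 * ((f : ℝ) + 1)) := ⟨_, rfl⟩
  have hε0 : 0 < ε := by rw [hε]; positivity
  have hεf : ((f : ℝ) + 1) * ε = θ / 8 := by
    rw [hε]
    field_simp
  have hεθ : ε ≤ θ / 8 := by
    rw [← hεf]
    exact le_mul_of_one_le_left hε0.le (by linarith)
  obtain ⟨u₂, hu₂⟩ : ∃ u₂ : ℝ, u₂ = (w + 1) / 2 := ⟨_, rfl⟩
  have hu02 : w < u₂ := by rw [hu₂]; linarith
  have hu21 : u₂ < 1 := by rw [hu₂]; linarith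
  obtain ⟨Kc, d, hd, hnb⟩ := nbx_cls htm hch hu02 hu21 1 hε0 hθ
  obtain ⟨η', hη'⟩ : ∃ η' : ℝ, η' = min 1 (η / (2 * ((f : ℝ) + 1))) := ⟨_, rfl⟩
  have hη0 : 0 < η' := by rw [hη']; exact lt_min one_pos (by positivity)
  have hη1 : η' ≤ 1 := by rw [hη']; exact min_le_left _ _
  have hηη : 2 * (((f + 1 : ℕ) : ℝ) * η') ≤ η := by
    have e1 : η' ≤ η / (2 * ((f : ℝ) + 1)) := by rw [hη']; exact min_le_right _ _
    have e2 : 2 * (((f : ℝ) + 1) * (η / (2 * ((f : ℝ) + 1)))) = η := by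
      field_simp
    have e3 := mul_le_mul_of_nonneg_left e1 (show (0 : ℝ) ≤ 2 * ((f : ℝ) + 1) by positivity)
    push_cast
    linarith
  obtain ⟨J₁, hJ₁⟩ := E_big (a := θ) (C := 4 ^ f) hθ
  refine Bas.mono (J₁ + 1) ((hnb η' hη0 hη1).and (pos_bas hpos)) ?_
  rintro J hJ F A ⟨⟨V, z, z', g, hlab, hg0, hgc, hbox⟩, hA⟩ t t₁ t' t₁' P P₁ ht ht₁ hP
  have hq := isLaw_cond F.isLaw hA
  have h0 := hq.nonneg
  have f1 := hJ₁ J (by omega)
  obtain ⟨gg, hgg⟩ : ∃ gg : ℕ → ℕ, gg = fun i => ⌊(sn i - d i) * J⌋₊ := ⟨_, rfl⟩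
  obtain ⟨bad1, hbad1⟩ : ∃ bad1 : ℕ → F.Ω → Prop, bad1 = fun l ω =>
    ¬ ∀ x, NB F c 0 (1 + l) ⌊u₂ * J⌋₊ (fun i => 2 / 2 ^ gg i)
        (g (z' (slam F ⌊w * J⌋₊ ω))) ω x →
      |eval x (t' l (slam F ⌊w * J⌋₊ ω) - t₁' l (slam F ⌊w * J⌋₊ ω))| ≤
        2 ^ (ε * J) * (1 / 2 ^ P l + 1 / 2 ^ P₁ l) := ⟨_, rfl⟩
  obtain ⟨bad2, hbad2⟩ : ∃ bad2 : ℕ → F.Ω → Prop, bad2 = fun l ω =>
    l < f ∧ ¬ ∀ x, NB F c 0 (1 + l) ⌊u₂ * J⌋₊ (fun i => 2 / 2 ^ gg i)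
        (g (z' (slam F ⌊w * J⌋₊ ω))) ω x →
      |eval x (t' l (slam F ⌊w * J⌋₊ ω) - g (z' (slam F ⌊w * J⌋₊ ω)) (1 + l))| ≤
        2 ^ (ε * J) * (1 / 2 ^ P l + 1 / 2 ^ gg (1 + l)) := ⟨_, rfl⟩
  have hP1 : ∀ l < f + 1, Pb (Pool.Agent.H49.Ent.cond F.p A True) (bad1 l) ≤ η' := by
    intro l hl
    have b3 := hbox (1 + l) (Nat.zero_le _) (by omega) (c (1 + l)) 1 (P l) (P₁ l) _ _ _ _ _ _ _ _
      (le_max_left _ _) (ht l (by omega)).lb (ht₁ l (by omega)).lb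
    refine le_trans (Pb_mono25 h0 fun ω hω hn => ?_) b3
    rw [hbad1] at hn
    intro hall
    refine hn fun x hx => ?_
    rw [hgg] at hx
    have b4 := hall x hx
    rw [(ht l (by omega)).fx, (ht₁ l (by omega)).fx] at b4
    exact b4
  have hP2 : ∀ l < f + 1, Pb (Pool.Agent.H49.Ent.cond F.p A True) (bad2 l) ≤ η' := by
    intro l hl
    by_cases hlf : l < f
    · have b3 := hbox (1 + l) (Nat.zero_le _) (by omega) (c (1 + l)) (max 1 (Kc (1 + l))) (P l)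
        ⌊(sn (1 + l) - d (1 + l)) * J⌋₊ _ _ _ _ _ _ _ _ (by
          rw [if_pos (by omega : 1 + l < 1 + f)])
        ((ht l (by omega)).lb.mono (Finset.Subset.refl _) (le_max_left _ _) le_rfl)
        ((LbP.of (hlab (1 + l) (Nat.zero_le _) (by omega))).mono (Finset.Subset.refl _)
          (le_max_right _ _) le_rfl)
      refine le_trans (Pb_mono25 h0 fun ω hω hn => ?_) b3
      rw [hbad2] at hn
      intro hall
      refine hn.2 fun x hx => ?_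
      rw [hgg] at hx ⊢
      have b4 := hall x hx
      rw [(ht l (by omega)).fx] at b4
      exact b4
    · refine le_trans (Pb_mono25 h0 (B := fun _ => False) fun ω hω hn => ?_) (le_of_eq_of_le ?_
        hη0.le)
      · rw [hbad2] at hn
        exact hlf hn.1
      · unfold Pb
        simp
  refine ⟨fun ω => (∃ l < f + 1, bad1 l ω) ∨ ∃ l < f + 1, bad2 l ω, ?_, ?_⟩
  · have b1 := Pb_or25 h0 (fun ω => ∃ l < f + 1, bad1 l ω) (fun ω => ∃ l < f + 1, bad2 l ω)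
    have b2 := Pb_ex25 h0 bad1 (f + 1) hP1
    have b3 := Pb_ex25 h0 bad2 (f + 1) hP2
    linarith
  -- the good points
  intro ω hωA hgood n hn
  push Not at hgood
  obtain ⟨hg1, hg2⟩ := hgood
  obtain ⟨sl, hsl⟩ : ∃ sl, sl = slam F ⌊w * J⌋₊ ω := ⟨_, rfl⟩
  rw [← hsl]
  have hgdep : ∀ i < 1 + f, ∀ v, DepN c i (g v i) := by
    intro i hi v x x' e1 e2
    refine (hlab i (Nat.zero_le i) hi).dep v x x' e1 fun l hl => ?_
    obtain ⟨l', hl', rfl⟩ := mem_image.1 hl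
    exact e2 l' (mem_range.1 hl')
  have hgJ : ∀ i < 1 + f, (2 : ℝ) ^ gg i ≤ 2 ^ (sn i * J) := by
    intro i hi
    have e1 := s_nonneg hch hi
    have e2 := (hd i (Nat.zero_le i) hi).1
    rw [hgg]
    refine le_trans (pow_le_pow_right₀ (by norm_num) (Nat.floor_le_floor
      (mul_le_mul_of_nonneg_right (show sn i - d i ≤ sn i by linarith) (Nat.cast_nonneg J)))) ?_
    exact E_floor_le e1.1
  have hPJ : ∀ l ≤ f, (1 : ℝ) / 2 ^ P l ≤ 2 * 2 ^ (-(sn (1 + l) - θ) * J) := by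
    intro l hl
    have e1 := hP l hl
    have e2 : (2 : ℝ) ^ ((sn (1 + l) - θ) * J) ≤ 2 ^ ((P l : ℝ) + 1) :=
      Real.rpow_le_rpow_of_exponent_le (by norm_num) e1
    rw [Real.rpow_add (by norm_num), Real.rpow_natCast, Real.rpow_one] at e2
    rw [neg_mul, Real.rpow_neg (by norm_num), div_le_iff₀ (by positivity)]
    have e3 := E_pos J (sn (1 + l) - θ)
    have e4 : (2 : ℝ) * (2 ^ ((sn (1 + l) - θ) * (J : ℝ)))⁻¹ * 2 ^ P l =
      (2 ^ P l * 2) / 2 ^ ((sn (1 + l) - θ) * (J : ℝ)) := by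
      field_simp
    rw [e4, le_div_iff₀ e3]
    linarith
  obtain ⟨L, hL⟩ : ∃ L : ℝ, L = 4 * 2 ^ ((θ + 2 * ε) * J) := ⟨_, rfl⟩
  have hL1 : 1 ≤ L := by
    have := E_one (J := J) (a := θ + 2 * ε) (by linarith)
    rw [hL]
    linarith
  obtain ⟨Y, hY⟩ : ∃ Y : ℝ, Y = 1 / 2 ^ P n + 1 / 2 ^ P₁ n := ⟨_, rfl⟩
  have hY0 : 0 ≤ Y := by rw [hY]; positivity
  have hNBω : NB F c 0 (1 + n) ⌊u₂ * J⌋₊ (fun i => 2 / 2 ^ gg i) (g (z' sl)) ω (bt F ω) := by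
    refine ⟨?_, fun i hi => absurd hi (Nat.not_lt_zero i), fun i hi hi' => ?_⟩
    · have e1 : bt F ω none - F.t ω = 0 := sub_self _
      rw [e1, abs_zero]
      positivity
    · have h5 := (hlab i hi (by omega)).pos ω hωA
      rw [← hsl] at h5
      have e1 : bt F ω (some (c i)) = F.x ω (c i) := rfl
      rw [e1]
      have e2 : (1 : ℝ) / 2 ^ gg i ≤ 2 / 2 ^ gg i :=
        div_le_div_of_nonneg_right (by norm_num) (by positivity)
      refine le_trans ?_ e2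
      rw [hgg]
      exact h5
  have hμδ : ∀ l, 1 ≤ l → l < 1 + n →
      1 + 2 * (2 ^ (ε * J) * (1 / 2 ^ P (l - 1) + 1 / 2 ^ gg l) / (2 / 2 ^ gg l)) ≤ L := by
    intro l hl1 hl
    obtain ⟨l', rfl⟩ : ∃ l', l = 1 + l' := ⟨l - 1, by omega⟩
    have e0 : 1 + l' - 1 = l' := by omega
    rw [e0]
    have e1 : (2 : ℝ) * (2 ^ (ε * J) * (1 / 2 ^ P l' + 1 / 2 ^ gg (1 + l')) /
        (2 / 2 ^ gg (1 + l'))) = 2 ^ (ε * J) * (2 ^ gg (1 + l') * (1 / 2 ^ P l') + 1) := by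
      field_simp
    have e3 := hPJ l' (by omega)
    have e4 : (2 : ℝ) ^ gg (1 + l') * (1 / 2 ^ P l') ≤ 2 * 2 ^ (θ * J) := by
      refine (mul_le_mul (hgJ (1 + l') (by omega)) e3 (by positivity) (E_pos J _).le).trans ?_
      rw [mul_left_comm, E_add]
      exact mul_le_mul_of_nonneg_left (E_mono J (by linarith)) (by norm_num)
    have e5 := E_one (J := J) (a := θ) hθ.le
    have e6 : (2 : ℝ) ^ (ε * J) * (2 ^ gg (1 + l') * (1 / 2 ^ P l') + 1) ≤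
        2 ^ (ε * J) * (3 * 2 ^ (θ * J)) :=
      mul_le_mul_of_nonneg_left (by linarith) (E_pos J _).le
    have e7 : (2 : ℝ) ^ (ε * J) * (3 * 2 ^ (θ * J)) = 3 * 2 ^ ((ε + θ) * J) := by
      rw [mul_left_comm, E_add]
    have e8 := E_one (J := J) (a := θ + 2 * ε) (by linarith)
    have e9 := E_mono J (show ε + θ ≤ θ + 2 * ε by linarith)
    rw [e1, hL]
    linarith
  obtain ⟨b1, b2, b3, b4⟩ := gd_el (J := J) (F := F) (ω := ω) (c := c)
    (U := ⌊u₂ * J⌋₊) (a := fun i => t' (i - 1) sl) (g := g (z' sl)) (δ := fun i => 2 / 2 ^ gg i)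
    (μ := fun i => 2 ^ (ε * J) * (1 / 2 ^ P (i - 1) + 1 / 2 ^ gg i)) (L := L)
    hL1 n (hch.inj.mono (Set.Iio_subset_Iio (by omega))) (fun l hl hl' => by
      have e1 := (ht (l - 1) (by omega)).deg sl
      have e2 := (ht (l - 1) (by omega)).dep sl
      rw [show 1 + (l - 1) = l by omega] at e2
      exact ⟨e1, e2⟩) (fun l hl => hgdep l (by omega) _) (fun l hl => by positivity)
    (fun l hl hl' x hx => by
      have e1 := hg2 (l - 1) (by omega)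
      rw [hbad2] at e1
      simp only [not_and, not_not] at e1
      have e2 := e1 (by omega) x
      rw [show 1 + (l - 1) = l by omega, ← hsl] at e2
      exact e2 hx) hμδ ⟨bt F ω, hNBω⟩ (t' n sl - t₁' n sl)
    ((totalDegree_sub _ _).trans (max_le ((ht n hn).deg sl) ((ht₁ n hn).deg sl)))
    (fun x x' e1 e2 => by
      rw [map_sub, map_sub, (ht n hn).dep sl x x' e1 e2, (ht₁ n hn).dep sl x x' e1 e2])
    (B := 2 ^ (ε * J) * Y) (mul_nonneg (E_pos J _).le hY0) (fun x hx => by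
      have e1 := hg1 n (by omega)
      rw [hbad1] at e1
      simp only [not_not] at e1
      rw [← hsl] at e1
      rw [hY]
      exact e1 x hx)
  have hLn : 2 ^ (ε * J) * L ^ n ≤ 2 ^ ((((f : ℝ) + 2) * θ) * J) := by
    have e1 : L ^ n ≤ 4 ^ f * 2 ^ ((f * (θ + 2 * ε)) * J) := by
      have e2 : L ^ n ≤ L ^ f := pow_le_pow_right₀ hL1 hn
      refine e2.trans (le_of_eq ?_)
      rw [hL, mul_pow, E_pow]
    calc (2 : ℝ) ^ (ε * J) * L ^ n ≤
        2 ^ (ε * J) * (2 ^ (θ * J) * 2 ^ ((f * (θ + 2 * ε)) * J)) :=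
          mul_le_mul_of_nonneg_left (e1.trans (mul_le_mul_of_nonneg_right f1 (E_pos J _).le))
            (E_pos J _).le
      _ = 2 ^ ((ε + (θ + f * (θ + 2 * ε))) * J) := by rw [E_add, E_add]
      _ ≤ _ := E_mono J (by
          have e3 : (f : ℝ) * (2 * ε) ≤ 2 * (θ / 8) := by
            rw [← hεf]
            nlinarith
          nlinarith)
  have hfin : ∀ i < 1 + f, ∀ x : ℝ, x * (2 / 2 ^ gg i) ≤ 2 * (2 ^ (ε * J) * Y * L ^ n) →
      x ≤ 2 ^ ((sn i + ((f : ℝ) + 2) * θ) * J) * Y := by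
    intro i hi x hx
    have p1 : (0 : ℝ) < 2 ^ gg i := by positivity
    have e1 : x * (2 / 2 ^ gg i) = x * 2 / 2 ^ gg i := by ring
    rw [e1, div_le_iff₀ p1] at hx
    have e2 : 2 ^ (ε * J) * Y * L ^ n * 2 ^ gg i = (2 ^ (ε * J) * L ^ n) * 2 ^ gg i * Y := by ring
    have e3 : (2 ^ (ε * J) * L ^ n) * 2 ^ gg i * Y ≤
        2 ^ ((((f : ℝ) + 2) * θ) * J) * 2 ^ (sn i * J) * Y :=
      mul_le_mul_of_nonneg_right (mul_le_mul hLn (hgJ i hi) p1.le (E_pos J _).le) hY0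
    have e4 : (2 : ℝ) ^ ((((f : ℝ) + 2) * θ) * J) * 2 ^ (sn i * J) =
        2 ^ ((sn i + ((f : ℝ) + 2) * θ) * J) := by
      rw [E_add]
      congr 2
      ring
    rw [e4] at e3
    linarith
  rw [← hY]
  exact ⟨b1, b2, hfin 0 (by omega) _ b3, fun i hi => hfin (1 + i) (by omega) _ (b4 i hi)⟩

end Pool.NS71
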