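import Pool.Agent.H71.NS.Ns1

/-!
# The own velocities over the affine labels of the first window of a mesh

`gd_cls`: off a small event the own velocities of two samples with the same affine labels at all
windows of a mesh differ little, up to the difference of the velocities of the base.
-/

set_option autoImplicit false

namespace Pool.NS71

open Finset Real MvPolynomial
open Pool.Agent.H49.Ent Pool.Agent.H32.Dense Pool.STK Pool.KA Pool.KSAT Pool.K2S Pool.PB Pool.GEN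
open Pool.S6C Pool.RCD Pool.LA91 Pool.FVL91
open Pool.GRD (LbP)
open Pool.BFL (Pb)
open Pool.LIV (Pb_mono25 Pb_or25 Pb_ex25)

variable {m : ℕ}

theorem inv_P {J P : ℕ} {x : ℝ} (h : x * J ≤ P + 1) : (1 : ℝ) / 2 ^ P ≤ 2 * 2 ^ (-x * J) := by
  have e2 : (2 : ℝ) ^ (x * J) ≤ 2 ^ ((P : ℝ) + 1) :=
    Real.rpow_le_rpow_of_exponent_le (by norm_num) h
  rw [Real.rpow_add (by norm_num), Real.rpow_natCast, Real.rpow_one] at e2
  rw [neg_mul, Real.rpow_neg (by norm_num), div_le_iff₀ (by positivity)]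
  have e3 := E_pos J x
  have e4 : (2 : ℝ) * (2 ^ (x * (J : ℝ)))⁻¹ * 2 ^ P = (2 ^ P * 2) / 2 ^ (x * (J : ℝ)) := by
    field_simp
  rw [e4, le_div_iff₀ e3]
  linarith

/-- **The own velocities of two samples with the same labels.** -/
theorem gd_cls {S : PCl m} {C₀ : ℝ} (htm : TmC S C₀)
    (hpos : ∀ (τ : ℝ) (J : ℕ) (F : Fam m J) (A : F.Ω → Prop), S.St τ J F A → 0 < Pe F.p A)
    {c : ℕ → Fin m} {f N : ℕ} {v : ℕ → ℝ} {sn : ℕ → ℝ → ℝ} {w s θ η : ℝ}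
    (hch : ∀ j ≤ N, ∃ (u₁ : ℝ) (rd : ℕ → ℝ),
      Chn S c 0 (1 + f) (v j) (v j) u₁ (fun i => sn i (v j)) rd)
    (hs : 1 ≤ s) (hθ : 0 < θ) (hη : 0 < η) (v0 : v 0 = w)
    (hmono : ∀ j < N, v j ≤ v (j + 1)) (hstep : ∀ j < N, s * (v (j + 1) - v j) ≤ θ)
    (hl0 : ∀ j ≤ N, |sn 0 (v j) - sn 0 w - (v j - w)| ≤ θ)
    (hla : ∀ j ≤ N, ∀ l ≤ f, |sn (1 + l) (v j) - sn (1 + l) w - s * (v j - w)| ≤ θ) :
    Bas S (fun J F A => ∀ (t : ℕ → ℕ → PtT F → MvPolynomial (Option (Fin m)) ℝ)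
      (t' : ℕ → ℕ → LnT F → MvPolynomial (Option (Fin m)) ℝ) (P : ℕ → ℕ → ℕ),
      (∀ j ≤ N, ∀ l ≤ f, PLb F c l ⌊v j * J⌋₊ (P j l) A (t j l) (t' j l)) →
      (∀ j ≤ N, ∀ l ≤ f, (sn (1 + l) (v j) - θ) * J ≤ P j l + 1) →
      ∃ Bad : F.Ω → Prop, Pb (Pool.Agent.H49.Ent.cond F.p A True) Bad ≤ η ∧
        (∀ ω, A ω → ¬ Bad ω → ∀ l ≤ f,
          |ojet F (c (1 + l)) 1 (t' 0 l (slam F ⌊w * J⌋₊ ω)) ω| ≤ 2 ^ (((1 : ℕ) + 1 : ℝ) * J)) ∧
        ∀ ω ω', A ω → A ω' → ¬ Bad ω → ¬ Bad ω' →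
          (∀ j ≤ N, ∀ l ≤ f, t' j l (slam F ⌊v j * J⌋₊ ω) = t' j l (slam F ⌊v j * J⌋₊ ω')) →
          ∀ l ≤ f, |ojet F (c (1 + l)) 1 (t' 0 l (slam F ⌊w * J⌋₊ ω')) ω' -
            ojet F (c (1 + l)) 1 (t' 0 l (slam F ⌊w * J⌋₊ ω)) ω| ≤
            2 ^ ((((f : ℝ) + 7) ^ 2 * θ - sn (1 + l) w) * J) *
              (2 ^ ((v N - s * (v N - w)) * J) +
                2 ^ (sn 0 w * J) * |F.d ω' (c 0) - F.d ω (c 0)|)) := by
  classical
  have hf0 : (0 : ℝ) ≤ f := Nat.cast_nonneg f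
  have hvw : ∀ j ≤ N, w ≤ v j := by
    intro j
    induction j with
    | zero => exact fun _ => v0.ge
    | succ j ih => exact fun h => (ih (by omega)).trans (hmono j (by omega))
  -- the small events
  obtain ⟨η', hη'⟩ : ∃ η' : ℝ, η' = η / ((N : ℝ) + 2 * ((f : ℝ) + 1) + 1) := ⟨_, rfl⟩
  have hη0 : 0 < η' := by rw [hη']; positivity
  have hηη : ((N : ℝ) + 2 * ((f : ℝ) + 1)) * η' ≤ η := by
    have e1 : ((N : ℝ) + 2 * ((f : ℝ) + 1) + 1) * η' = η := by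
      rw [hη']
      field_simp
    linarith
  have hst : Bas S (fun J F A => ∀ j < N, ∀ (t t₁ : ℕ → PtT F → MvPolynomial (Option (Fin m)) ℝ)
      (t' t₁' : ℕ → LnT F → MvPolynomial (Option (Fin m)) ℝ) (P P₁ : ℕ → ℕ),
      (∀ l ≤ f, PLb F c l ⌊v (j + 1) * J⌋₊ (P l) A (t l) (t' l)) →
      (∀ l ≤ f, PLb F c l ⌊v (j + 1) * J⌋₊ (P₁ l) A (t₁ l) (t₁' l)) →
      (∀ l ≤ f, (sn (1 + l) (v (j + 1)) - θ) * J ≤ P l + 1) →
      ∃ Bad : F.Ω → Prop, Pb (Pool.Agent.H49.Ent.cond F.p A True) Bad ≤ η' ∧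
        ∀ ω, A ω → ¬ Bad ω → ∀ l ≤ f,
          ElOK c (fun i => t' (i - 1) (slam F ⌊v (j + 1) * J⌋₊ ω)) l
            (t' l (slam F ⌊v (j + 1) * J⌋₊ ω) - t₁' l (slam F ⌊v (j + 1) * J⌋₊ ω))
            (fun i => 2 ^ ((sn i (v (j + 1)) + ((f : ℝ) + 2) * θ) * J))
            (1 / 2 ^ P l + 1 / 2 ^ P₁ l)) := by
    refine Bas.all N fun j hj => ?_
    obtain ⟨u₁, rd, h1⟩ := hch (j + 1) (by omega)
    exact st_cls htm hpos h1 hθ hη0
  obtain ⟨uN, rdN, hchN⟩ := hch N le_rfl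
  obtain ⟨uo, rdo, hcho⟩ := hch 0 (Nat.zero_le N)
  have hvN0 := hchN.w0
  have hvN1 := hchN.u0
  have hw0 := hcho.w0
  have hw1 := hcho.u0
  rw [v0] at hw0 hw1
  have hoN : Bas S (fun J F A => ∀ l < f + 1, ∀ (P : ℕ) (V : Type) (z : PtT F → V)
      (z' : LnT F → V) (G : V → MvPolynomial (Option (Fin m)) ℝ),
      LbP F ((range (1 + l)).image c) (c (1 + l)) 1 J ⌊v N * J⌋₊ P A z z' G →
      Pb (Pool.Agent.H49.Ent.cond F.p A True) (fun ω =>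
        ¬ |ojet F (c (1 + l)) 1 (G (z' (slam F ⌊v N * J⌋₊ ω))) ω| ≤
          2 ^ ((θ + (1 : ℕ) * v N) * J) * (1 / 2 ^ P)) ≤ η') :=
    Bas.all (f + 1) fun l _ => own_cls htm ((range (1 + l)).image c) (c (1 + l)) 1 1 hvN0 hvN1
      hη0 hθ
  obtain ⟨θ', hθ'⟩ : ∃ θ' : ℝ, θ' = min θ 1 := ⟨_, rfl⟩
  have hθ'0 : 0 < θ' := by rw [hθ']; exact lt_min hθ one_pos
  have hθ'1 : θ' ≤ 1 := by rw [hθ']; exact min_le_right _ _
  have ho0 : Bas S (fun J F A => ∀ l < f + 1, ∀ (P : ℕ) (V : Type) (z : PtT F → V)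
      (z' : LnT F → V) (G : V → MvPolynomial (Option (Fin m)) ℝ),
      LbP F ((range (1 + l)).image c) (c (1 + l)) 1 J ⌊w * J⌋₊ P A z z' G →
      Pb (Pool.Agent.H49.Ent.cond F.p A True) (fun ω =>
        ¬ |ojet F (c (1 + l)) 1 (G (z' (slam F ⌊w * J⌋₊ ω))) ω| ≤
          2 ^ ((θ' + (1 : ℕ) * w) * J) * (1 / 2 ^ P)) ≤ η') :=
    Bas.all (f + 1) fun l _ => own_cls htm ((range (1 + l)).image c) (c (1 + l)) 1 1 hw0 hw1
      hη0 hθ'0
  obtain ⟨J₁, hJ₁⟩ := E_big (a := θ) (C := 4) hθ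
  obtain ⟨J₂, hJ₂⟩ := E_big (a := θ) (C := ((f : ℝ) + 2) ^ N * 4 ^ (f + 1)) hθ
  refine Bas.mono (J₁ + J₂ + 1) ((hst.and (hoN.and ho0)).and (pos_bas hpos)) ?_
  rintro J hJ F A ⟨⟨hst, hoN, ho0⟩, hA⟩ t t' P ht hP
  have hq := isLaw_cond F.isLaw hA
  have h0 := hq.nonneg
  have hJ0 : (0 : ℝ) ≤ J := Nat.cast_nonneg J
  have f1 := hJ₁ J (by omega)
  have f2 := hJ₂ J (by omega)
  have hvJ : ∀ j ≤ N, ⌊v j * J⌋₊ ≤ J := fun j hj => by
    obtain ⟨u₁, rd, h1⟩ := hch j hj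
    exact floor_le h1.u0.le J
  have hvv : ∀ j < N, ⌊v j * J⌋₊ ≤ ⌊v (j + 1) * J⌋₊ := fun j hj =>
    Nat.floor_le_floor (mul_le_mul_of_nonneg_right (hmono j hj) hJ0)
  -- the steps
  have hex : ∀ j : ℕ, ∃ Bad : F.Ω → Prop, Pb (Pool.Agent.H49.Ent.cond F.p A True) Bad ≤ η' ∧
      (j < N → ∀ ω, A ω → ¬ Bad ω → ∀ l ≤ f,
        ElOK c (fun i => t' (j + 1) (i - 1) (slam F ⌊v (j + 1) * J⌋₊ ω)) l
          (t' (j + 1) l (slam F ⌊v (j + 1) * J⌋₊ ω) - t' j l (slam F ⌊v j * J⌋₊ ω))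
          (fun i => 2 ^ ((sn i (v (j + 1)) + ((f : ℝ) + 2) * θ) * J))
          (1 / 2 ^ P (j + 1) l + 1 / 2 ^ P j l)) := by
    intro j
    by_cases hj : j < N
    · obtain ⟨Bad, h1, h2⟩ := hst j hj (t (j + 1)) (t j) (t' (j + 1))
        (fun l s => t' j l (s.1, s.2.1, s.2.2 / 2 ^ (⌊v (j + 1) * J⌋₊ - ⌊v j * J⌋₊)))
        (P (j + 1)) (P j) (fun l hl => ht (j + 1) (by omega) l hl)
        (fun l hl => (ht j (by omega) l hl).win (hvv j hj) (hvJ (j + 1) (by omega)))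
        (fun l hl => hP (j + 1) (by omega) l hl)
      refine ⟨Bad, h1, fun _ ω hω hn l hl => ?_⟩
      have h3 := h2 ω hω hn l hl
      have e1 : ((slam F ⌊v (j + 1) * J⌋₊ ω).1, (slam F ⌊v (j + 1) * J⌋₊ ω).2.1,
          (slam F ⌊v (j + 1) * J⌋₊ ω).2.2 / 2 ^ (⌊v (j + 1) * J⌋₊ - ⌊v j * J⌋₊)) =
          slam F ⌊v j * J⌋₊ ω := (slam_coarse F (hvv j hj) (hvJ (j + 1) (by omega)) ω).symm
      simp only [e1] at h3
      exact h3
    · refine ⟨fun _ => False, ?_, fun h => absurd h hj⟩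
      unfold Pb
      simp only [if_false, Finset.sum_const_zero]
      exact hη0.le
  choose Bs hBs1 hBs2 using hex
  obtain ⟨bo, hbo⟩ : ∃ bo : ℕ → F.Ω → Prop, bo = fun l ω =>
    ¬ |ojet F (c (1 + l)) 1 (t' N l (slam F ⌊v N * J⌋₊ ω)) ω| ≤
      2 ^ ((θ + (1 : ℕ) * v N) * J) * (1 / 2 ^ P N l) := ⟨_, rfl⟩
  obtain ⟨bc, hbc⟩ : ∃ bc : ℕ → F.Ω → Prop, bc = fun l ω =>
    ¬ |ojet F (c (1 + l)) 1 (t' 0 l (slam F ⌊w * J⌋₊ ω)) ω| ≤
      2 ^ ((θ' + (1 : ℕ) * w) * J) * (1 / 2 ^ P 0 l) := ⟨_, rfl⟩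
  have hPo : ∀ l < f + 1, Pb (Pool.Agent.H49.Ent.cond F.p A True) (bo l) ≤ η' := by
    intro l hl
    have h1 := ht N le_rfl l (by omega)
    refine le_trans (Pb_mono25 h0 fun ω hω hn => ?_) (hoN l hl _ _ _ _ _ h1.lb)
    rw [hbo] at hn
    rw [h1.fx]
    exact hn
  have hPc : ∀ l < f + 1, Pb (Pool.Agent.H49.Ent.cond F.p A True) (bc l) ≤ η' := by
    intro l hl
    have h1 := ht 0 (Nat.zero_le N) l (by omega)
    rw [v0] at h1
    refine le_trans (Pb_mono25 h0 fun ω hω hn => ?_) (ho0 l hl _ _ _ _ _ h1.lb)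
    rw [hbc] at hn
    rw [h1.fx]
    exact hn
  refine ⟨fun ω => (∃ j < N, Bs j ω) ∨ ((∃ l < f + 1, bo l ω) ∨ ∃ l < f + 1, bc l ω), ?_, ?_, ?_⟩
  · have b1 := Pb_ex25 h0 Bs N fun j _ => hBs1 j
    have b2 := Pb_ex25 h0 bo (f + 1) hPo
    have b3 := Pb_ex25 h0 bc (f + 1) hPc
    have b4 := Pb_or25 h0 (fun ω => ∃ j < N, Bs j ω)
      (fun ω => (∃ l < f + 1, bo l ω) ∨ ∃ l < f + 1, bc l ω)
    have b5 := Pb_or25 h0 (fun ω => ∃ l < f + 1, bo l ω) (fun ω => ∃ l < f + 1, bc l ω)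
    push_cast at b2 b3
    linarith
  · intro ω hω hgood l hl
    push Not at hgood
    have h1 := hgood.2.2 l (by omega)
    rw [hbc] at h1
    simp only [not_not] at h1
    refine h1.trans ?_
    have e1 : (1 : ℝ) / 2 ^ P 0 l ≤ 1 := by
      rw [div_le_one (by positivity)]
      exact one_le_pow₀ (by norm_num)
    calc (2 : ℝ) ^ ((θ' + (1 : ℕ) * w) * J) * (1 / 2 ^ P 0 l) ≤
        2 ^ ((θ' + (1 : ℕ) * w) * J) * 1 := mul_le_mul_of_nonneg_left e1 (E_pos J _).le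
      _ ≤ _ := by
          rw [mul_one]
          exact E_mono J (by push_cast; linarith)
  -- two good samples
  intro ω ω' hω hω' hgd hgd' heq l hl
  push Not at hgd hgd'
  obtain ⟨hg1, hg2, -⟩ := hgd
  obtain ⟨-, hg2', -⟩ := hgd'
  obtain ⟨U, hU⟩ : ∃ U : ℕ → ℕ → ℝ, U = fun j l =>
    ojet F (c (1 + l)) 1 (t' j l (slam F ⌊v j * J⌋₊ ω')) ω' -
      ojet F (c (1 + l)) 1 (t' j l (slam F ⌊v j * J⌋₊ ω)) ω := ⟨_, rfl⟩
  obtain ⟨b, hb⟩ : ∃ b : ℕ → ℝ, b = fun l => 2 ^ (-sn (1 + l) w * J) := ⟨_, rfl⟩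
  obtain ⟨τ, hτ⟩ : ∃ τ : ℝ, τ = 4 * 2 ^ ((((f : ℝ) + 6) * θ) * J) := ⟨_, rfl⟩
  obtain ⟨D, hD⟩ : ∃ D : ℝ, D = |F.d ω' (c 0) - F.d ω (c 0)| := ⟨_, rfl⟩
  obtain ⟨X, hX⟩ : ∃ X : ℝ, X = 2 ^ ((v N - s * (v N - w) + 4 * θ) * J) + 2 ^ (sn 0 w * J) * D :=
    ⟨_, rfl⟩
  have hD0 : 0 ≤ D := by rw [hD]; exact abs_nonneg _
  have hX0 : 0 ≤ X := by
    rw [hX]
    have := E_pos J (v N - s * (v N - w) + 4 * θ)
    have := E_pos J (sn 0 w)
    positivity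
  have hbp : ∀ l, 0 < b l := fun l => by rw [hb]; exact E_pos J _
  have hτ1 : 1 ≤ τ := by
    rw [hτ]
    have := E_one (J := J) (a := ((f : ℝ) + 6) * θ) (by positivity)
    linarith
  -- the own velocities at the last window
  have hown : ∀ l ≤ f, |U N l| ≤ b l * X := by
    intro l hl
    have h1 := hg2 l (by omega)
    have h1' := hg2' l (by omega)
    rw [hbo] at h1 h1'
    simp only [not_not] at h1 h1'
    have h2 := inv_P (hP N le_rfl l hl)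
    have h3 := abs_le.1 (hla N le_rfl l hl)
    have e1 : |U N l| ≤ 2 * (2 ^ ((θ + (1 : ℕ) * v N) * J) * (1 / 2 ^ P N l)) := by
      rw [hU]
      refine (abs_sub _ _).trans ?_
      linarith
    have e2 : (2 : ℝ) ^ ((θ + (1 : ℕ) * v N) * J) * (1 / 2 ^ P N l) ≤
        2 * 2 ^ ((θ + v N + -(sn (1 + l) (v N) - θ)) * J) := by
      refine (mul_le_mul_of_nonneg_left h2 (E_pos J _).le).trans (le_of_eq ?_)
      rw [mul_left_comm, E_add]
      push_cast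
      ring_nf
    have e3 : (4 : ℝ) * 2 ^ ((θ + v N + -(sn (1 + l) (v N) - θ)) * J) ≤
        b l * 2 ^ ((v N - s * (v N - w) + 4 * θ) * J) := by
      rw [hb]
      simp only
      rw [E_add]
      refine (mul_le_mul_of_nonneg_right f1 (E_pos J _).le).trans ?_
      rw [E_add]
      exact E_mono J (by linarith [h3.1])
    have e4 : b l * 2 ^ ((v N - s * (v N - w) + 4 * θ) * J) ≤ b l * X := by
      refine mul_le_mul_of_nonneg_left ?_ (hbp l).le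
      rw [hX]
      have : 0 ≤ 2 ^ (sn 0 w * J) * D := mul_nonneg (E_pos J _).le hD0
      linarith
    linarith
  -- the recursion
  have hrec : ∀ j < N, ∀ l ≤ f, |U j l| ≤ |U (j + 1) l| + b l * τ * X +
      ∑ i ∈ range l, b l / b i * τ * |U (j + 1) i| := by
    intro j hj l hl
    have hE := hBs2 j hj ω hω (hg1 j hj) l hl
    obtain ⟨Y, hY⟩ : ∃ Y : ℝ, Y = 1 / 2 ^ P (j + 1) l + 1 / 2 ^ P j l := ⟨_, rfl⟩
    rw [← hY] at hE
    have hYb : Y ≤ 4 * 2 ^ (-(sn (1 + l) w + s * (v j - w) - 2 * θ) * J) := by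
      have h2 := inv_P (hP (j + 1) (by omega) l hl)
      have h2' := inv_P (hP j (by omega) l hl)
      have h3 := (abs_le.1 (hla (j + 1) (by omega) l hl)).1
      have h3' := (abs_le.1 (hla j (by omega) l hl)).1
      have h4 : s * (v j - w) ≤ s * (v (j + 1) - w) :=
        mul_le_mul_of_nonneg_left (by linarith [hmono j hj]) (by linarith)
      have e1 := E_mono J (show -(sn (1 + l) (v (j + 1)) - θ) ≤
        -(sn (1 + l) w + s * (v j - w) - 2 * θ) by linarith)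
      have e2 := E_mono J (show -(sn (1 + l) (v j) - θ) ≤
        -(sn (1 + l) w + s * (v j - w) - 2 * θ) by linarith)
      rw [hY]
      linarith
    have hvw1 : v (j + 1) - w ≤ s * (v (j + 1) - w) :=
      le_mul_of_one_le_left (by linarith [hvw (j + 1) (by omega)]) hs
    have hvs : s * (v (j + 1) - w) ≤ s * (v j - w) + θ := by
      have := hstep j hj
      linarith
    have hY0 : 0 ≤ Y := by rw [hY]; positivity
    -- the coefficients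
    have hco : ∀ (y i : ℝ), y ≤ i + s * (v j - w) + 2 * θ →
        2 ^ ((y + ((f : ℝ) + 2) * θ) * J) * Y ≤ b l * τ * 2 ^ (i * J) := by
      intro y i hy
      have e1 : (2 : ℝ) ^ ((y + ((f : ℝ) + 2) * θ) * J) * Y ≤
          2 ^ ((i + s * (v j - w) + 2 * θ + ((f : ℝ) + 2) * θ) * J) *
            (4 * 2 ^ (-(sn (1 + l) w + s * (v j - w) - 2 * θ) * J)) :=
        mul_le_mul (E_mono J (by linarith)) hYb hY0 (E_pos J _).le
      refine e1.trans (le_of_eq ?_)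
      rw [hb, hτ, mul_left_comm, E_add]
      simp only
      have e2 : (2 : ℝ) ^ (-sn (1 + l) w * J) * (4 * 2 ^ (((f : ℝ) + 6) * θ * J)) * 2 ^ (i * J) =
          4 * (2 ^ (-sn (1 + l) w * J) * 2 ^ (((f : ℝ) + 6) * θ * J) * 2 ^ (i * J)) := by ring
      rw [e2, E_add, E_add]
      congr 2
      ring
    -- the difference of the velocities
    obtain ⟨a, ha⟩ : ∃ a : ℕ → MvPolynomial (Option (Fin m)) ℝ,
      a = fun i => t' (j + 1) (i - 1) (slam F ⌊v (j + 1) * J⌋₊ ω) := ⟨_, rfl⟩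
    obtain ⟨H, hH⟩ : ∃ H, H = t' (j + 1) l (slam F ⌊v (j + 1) * J⌋₊ ω) -
      t' j l (slam F ⌊v j * J⌋₊ ω) := ⟨_, rfl⟩
    rw [← ha, ← hH] at hE
    have h5 := gd_two (F := F) (ω := ω) (ω' := ω') hE.deg hE.dep
    have h6 : U j l = U (j + 1) l + (jet 1 H (bt F ω') (bd F ω') - jet 1 H (bt F ω) (bd F ω)) := by
      rw [hU]
      simp only
      rw [← heq j (by omega) l hl, ← heq (j + 1) (by omega) l hl,
        ojet_sub F (c (1 + l)) 1 (t' (j + 1) l (slam F ⌊v (j + 1) * J⌋₊ ω)) _ ω',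
        ojet_sub F (c (1 + l)) 1 (t' (j + 1) l (slam F ⌊v (j + 1) * J⌋₊ ω)) _ ω, ← hH]
      ring
    have h7 : ∀ i ∈ range l, ojet F (c (1 + i)) 1 (a (1 + i)) ω' -
        ojet F (c (1 + i)) 1 (a (1 + i)) ω = U (j + 1) i := by
      intro i hi
      have hi' := Finset.mem_range.1 hi
      rw [hU, ha]
      simp only
      rw [show 1 + i - 1 = i by omega, ← heq (j + 1) (by omega) i (by omega)]
    rw [h5, Finset.sum_congr rfl fun i hi => by rw [h7 i hi]] at h6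
    have h8 : |coe1 (c 0) (elr c a 1 l H) * (F.d ω' (c 0) - F.d ω (c 0))| ≤ b l * τ * X := by
      rw [abs_mul, ← hD]
      have e1 := hE.co
      have e2 := hco (sn 0 (v (j + 1))) (sn 0 w) (by
        have := (abs_le.1 (hl0 (j + 1) (by omega))).2
        linarith)
      have e3 : |coe1 (c 0) (elr c a 1 l H)| * D ≤ b l * τ * 2 ^ (sn 0 w * J) * D :=
        mul_le_mul_of_nonneg_right (e1.trans e2) hD0
      refine e3.trans ?_
      rw [mul_assoc]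
      refine mul_le_mul_of_nonneg_left ?_ (by
        have := hbp l
        positivity)
      rw [hX]
      have := E_pos J (v N - s * (v N - w) + 4 * θ)
      linarith
    have h9 : |∑ i ∈ range l, bet c a 1 l H i * U (j + 1) i| ≤
        ∑ i ∈ range l, b l / b i * τ * |U (j + 1) i| := by
      refine (Finset.abs_sum_le_sum_abs _ _).trans (Finset.sum_le_sum fun i hi => ?_)
      have hi' := Finset.mem_range.1 hi
      rw [abs_mul]
      refine mul_le_mul_of_nonneg_right ?_ (abs_nonneg _)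
      have e1 := hE.be i hi'
      have e2 := hco (sn (1 + i) (v (j + 1))) (sn (1 + i) w) (by
        have := (abs_le.1 (hla (j + 1) (by omega) i (by omega))).2
        linarith)
      refine (e1.trans e2).trans (le_of_eq ?_)
      rw [hb]
      simp only
      rw [neg_mul (sn (1 + i) w), Real.rpow_neg (by norm_num)]
      have := E_pos J (sn (1 + i) w)
      field_simp
    rw [h6]
    refine (abs_add_le _ _).trans ?_
    have h10 := abs_add_le (coe1 (c 0) (elr c a 1 l H) * (F.d ω' (c 0) - F.d ω (c 0)))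
      (∑ i ∈ range l, bet c a 1 l H i * U (j + 1) i)
    linarith
  have hmain := gd_rec hbp hτ1 hX0 hown hrec N le_rfl l hl
  rw [Nat.sub_self] at hmain
  have e0 : U 0 l = ojet F (c (1 + l)) 1 (t' 0 l (slam F ⌊w * J⌋₊ ω')) ω' -
      ojet F (c (1 + l)) 1 (t' 0 l (slam F ⌊w * J⌋₊ ω)) ω := by
    rw [hU]
    simp only [v0]
  rw [e0] at hmain
  refine hmain.trans ?_
  have g1 : ((l : ℝ) + 2) ^ N * τ ^ (l + 1) ≤
      2 ^ ((θ + ((f : ℝ) + 1) * (((f : ℝ) + 6) * θ)) * J) := by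
    have hlf : (l : ℝ) ≤ f := by exact_mod_cast hl
    have k1 : ((l : ℝ) + 2) ^ N ≤ ((f : ℝ) + 2) ^ N :=
      pow_le_pow_left₀ (by positivity) (by linarith) N
    have k2 : τ ^ (l + 1) ≤ τ ^ (f + 1) := pow_le_pow_right₀ hτ1 (by omega)
    have k3 : τ ^ (f + 1) = 4 ^ (f + 1) * 2 ^ ((((f : ℝ) + 1) * (((f : ℝ) + 6) * θ)) * J) := by
      rw [hτ, mul_pow, E_pow]
      push_cast
      ring_nf
    calc ((l : ℝ) + 2) ^ N * τ ^ (l + 1) ≤ ((f : ℝ) + 2) ^ N *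
          (4 ^ (f + 1) * 2 ^ ((((f : ℝ) + 1) * (((f : ℝ) + 6) * θ)) * J)) := by
            rw [← k3]
            exact mul_le_mul k1 k2 (by positivity) (by positivity)
      _ = ((f : ℝ) + 2) ^ N * 4 ^ (f + 1) *
          2 ^ ((((f : ℝ) + 1) * (((f : ℝ) + 6) * θ)) * J) := by ring
      _ ≤ 2 ^ (θ * J) * 2 ^ ((((f : ℝ) + 1) * (((f : ℝ) + 6) * θ)) * J) :=
          mul_le_mul_of_nonneg_right f2 (E_pos J _).le
      _ = _ := by rw [E_add]
  have g2 : X ≤ 2 ^ ((4 * θ) * J) * (2 ^ ((v N - s * (v N - w)) * J) + 2 ^ (sn 0 w * J) * D) := by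
    rw [hX, mul_add, E_add]
    refine add_le_add (E_mono J (by linarith)) ?_
    exact le_mul_of_one_le_left (mul_nonneg (E_pos J _).le hD0) (E_one (by linarith))
  obtain ⟨X', hX'⟩ : ∃ X' : ℝ, X' = 2 ^ ((v N - s * (v N - w)) * J) + 2 ^ (sn 0 w * J) * D :=
    ⟨_, rfl⟩
  have hX'0 : 0 ≤ X' := by
    rw [hX']
    have := E_pos J (v N - s * (v N - w))
    have := E_pos J (sn 0 w)
    positivity
  rw [← hD, ← hX']
  rw [← hX'] at g2
  calc ((l : ℝ) + 2) ^ N * τ ^ (l + 1) * (b l * X) ≤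
      2 ^ ((θ + ((f : ℝ) + 1) * (((f : ℝ) + 6) * θ)) * J) * (b l * (2 ^ ((4 * θ) * J) * X')) :=
        mul_le_mul g1 (mul_le_mul_of_nonneg_left g2 (hbp l).le) (mul_nonneg (hbp l).le hX0)
          (E_pos J _).le
    _ = 2 ^ ((θ + ((f : ℝ) + 1) * (((f : ℝ) + 6) * θ) + -sn (1 + l) w + 4 * θ) * J) * X' := by
        rw [hb]
        simp only
        rw [← mul_assoc, ← mul_assoc, E_add, E_add]
    _ ≤ _ := mul_le_mul_of_nonneg_right (E_mono J (by nlinarith)) hX'0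

end Pool.NS71
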