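import Pool.Agent.H95.NS.Mk
import Pool.Agent.H63.T4.Dj0
import Pool.Agent.H83.VG.Cls

/-!
# The raw digits of the base: free between two records, known at a deep record

`CH_osc`: an integer with small oscillation on the cells. `fr_raw`: the digits of the velocity of the
base from `FrI`. `pos_rec`: its position at a deep record.
-/

set_option autoImplicit false

namespace Pool.NS71

open Finset Real MvPolynomial
open Pool.Agent.H49.Ent Pool.Agent.H32.Dense Pool.STK Pool.KA Pool.KSAT Pool.K2S Pool.PB Pool.GEN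
open Pool.S6C Pool.RCD Pool.LA91 Pool.V0F
open Pool.GRD (LbP)

section law

variable {Ω T : Type} [Fintype Ω] {p : Ω → ℝ}

/-- **Small oscillation on the cells.** -/
theorem CH_oscv (hp : IsLaw p) {n : ℕ} (X : Ω → Fin n → ℤ) (Z : Ω → T) {K : ℕ}
    (h : ∀ ω ω', 0 < p ω → 0 < p ω' → Z ω = Z ω' → ∀ i, |(X ω i : ℝ) - X ω' i| ≤ K) :
    CH p X Z ≤ n * Real.log (2 * K + 1) := by
  classical
  refine Pool.T4M.CH_vec hp X Z (fun z => if h : ∃ ω, 0 < p ω ∧ Z ω = z then X h.choose else 0)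
    fun ω hω i => ?_
  have h1 : ∃ ω', 0 < p ω' ∧ Z ω' = Z ω := ⟨ω, hω, rfl⟩
  have e1 : (if h : ∃ ω', 0 < p ω' ∧ Z ω' = Z ω then X h.choose else 0) = X h1.choose :=
    dif_pos h1
  simp only [e1]
  exact h ω h1.choose hω h1.choose_spec.1 h1.choose_spec.2.symm i

theorem CH_osc (hp : IsLaw p) (X : Ω → ℤ) (Z : Ω → T) {K : ℕ}
    (h : ∀ ω ω', 0 < p ω → 0 < p ω' → Z ω = Z ω' → |(X ω : ℝ) - X ω'| ≤ K) :
    CH p X Z ≤ Real.log (2 * K + 1) := by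
  have h1 := CH_oscv hp (n := 1) (fun ω _ => X ω) Z fun ω ω' a b c _ => h ω ω' a b c
  rw [Nat.cast_one, one_mul] at h1
  refine le_trans (CH_mono_left hp.nonneg (X' := fun ω (_ : Fin 1) => X ω) fun ω ω' _ _ e => ?_) h1
  have e1 := Prod.ext_iff.mp e
  exact congrFun e1.1 0

end law

theorem nr_fl {x y : ℝ} (h : ⌊x⌋ = ⌊y⌋) : |x - y| ≤ 1 := by
  have a1 := Int.floor_le x
  have a2 := Int.lt_floor_add_one x
  have a3 := Int.floor_le y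
  have a4 := Int.lt_floor_add_one y
  rw [h] at a1 a2
  rw [abs_le]
  constructor <;> linarith

theorem fl_dif {x y d : ℝ} (h : |x - y| ≤ d) : |((⌊x⌋ : ℤ) : ℝ) - ⌊y⌋| ≤ d + 1 := by
  have a1 := Int.floor_le x
  have a2 := Int.lt_floor_add_one x
  have a3 := Int.floor_le y
  have a4 := Int.lt_floor_add_one y
  have h1 := abs_le.1 h
  rw [abs_le]
  constructor <;> linarith

variable {m : ℕ}

theorem att_le {S : PCl m} {I : Finset (Fin m)} {k : Fin m} {w p p' r : ℝ}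
    (h : Att S I k w p r) (hp : p' ≤ p) : Att S I k w p' r := by
  intro e he
  obtain ⟨K, hK⟩ := h e he
  refine ⟨K, Bas.mono 0 hK ?_⟩
  rintro J - F A ⟨V, z, z', G, h⟩
  exact ⟨V, z, z', G, h.mono (Finset.Subset.refl _) le_rfl le_rfl le_rfl
    (Nat.floor_le_floor (mul_le_mul_of_nonneg_right (by linarith) (Nat.cast_nonneg J)))⟩

theorem mx_le {α β : ∀ J : ℕ, Fam m J → Type} {f : ∀ (J : ℕ) (F : Fam m J), F.Ω → α J F}
    {g : ∀ (J : ℕ) (F : Fam m J), F.Ω → β J F} {k k' : ℝ} {J : ℕ} {F : Fam m J}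
    {A : F.Ω → Prop} {V : Type} {z : F.Ω → V} (h : Mx f g k F A z) (hk : k ≤ k') :
    Mx f g k' F A z :=
  ⟨h.1, fun V' z' hz' => (h.2 V' z' hz').trans
    (mul_le_mul_of_nonneg_right hk (Nat.cast_nonneg J))⟩

/-- **The raw digits of the velocity of the base are free between two records.** -/
theorem fr_raw {S : PCl m}
    (hpos : ∀ (τ : ℝ) (J : ℕ) (F : Fam m J) (A : F.Ω → Prop), S.St τ J F A → 0 < Pe F.p A)
    {c : ℕ → Fin m} {sp : ℕ → ℝ → ℝ} {b w₁ x' P κ r h : ℝ} (hr : 0 ≤ r)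
    (hatt : Att S ((range 0).image c) (c 0) b (sp 0 b) r) (hb : b ≤ w₁) (hw : w₁ ≤ x')
    (hx : x' ≤ 1) (hP : 0 ≤ P) (hfr : FrI S c 1 sp b (fun _ => P) w₁ x' κ) (hh : 0 < h) :
    ∃ k : ℝ, 0 < k ∧ Bas S (fun J F A => ∀ (V : Type) (z : F.Ω → V) (V' : Type) (z' : F.Ω → V'),
      Mx (fun J F => ptr F J) (vg w₁) k F A z → Mx (fun J F => ptr F J) (vg x') k F A z' →
      CH (Pool.Agent.H49.Ent.cond F.p A True) (fun ω => F.D ⌊P * J⌋₊ ω (c 0))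
          (fun ω => (z ω, F.W ω)) ≤
        CH (Pool.Agent.H49.Ent.cond F.p A True) (fun ω => F.D ⌊P * J⌋₊ ω (c 0))
          (fun ω => (z' ω, F.W ω)) + (κ + h) * J) := by
  obtain ⟨k₂, hk₂, e₀, he₀, H⟩ := hfr
  have hex : Exs S (qG m c 1 sp b (fun _ : Fin 1 => P)) := by
    unfold qG
    refine exs_pi fun i => ?_
    obtain rfl : i = 0 := Subsingleton.elim _ _
    exact exs_jet hr hatt
  obtain ⟨K, M, hK⟩ := hex e₀ he₀
  obtain ⟨J₀, hJ₀⟩ := exists_nat_ge ((Real.log 5 + Real.log 7) / (h / 2))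
  refine ⟨min k₂ (h / 8), lt_min hk₂ (by positivity), Bas.mono J₀ (((H K).and hK).and
    (pos_bas hpos)) ?_⟩
  rintro J hJ F A ⟨⟨H, u, hu, -⟩, hA⟩ V z V' z' hz hz'
  have hcl := isLaw_cond F.isLaw hA
  have hp := hcl.nonneg
  have hJ0 : (0 : ℝ) ≤ J := Nat.cast_nonneg J
  have hlog : Real.log 5 + Real.log 7 ≤ h / 2 * J := by
    have h2 : (J₀ : ℝ) ≤ J := by exact_mod_cast hJ
    have h3 := hJ₀.trans h2
    rw [div_le_iff₀ (by positivity)] at h3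
    linarith
  have h1 := H V z V' z' (mx_le hz (min_le_left _ _)) (mx_le hz' (min_le_left _ _)) u hu
  obtain ⟨-, Vb, zb, zb', Gb, hl, hub⟩ := hu 0
  obtain ⟨χ₁, hχ₁⟩ := vg_mono hb (hw.trans hx) J F
  obtain ⟨χ₂, hχ₂⟩ := vg_mono (hb.trans hw) hx J F
  have c1 : Cl2 (ptr F J) (vg w₁ J F) A (fun ω => zb' (slam F ⌊b * J⌋₊ ω)) :=
    ⟨⟨zb, fun ω hω => (hl.cls ω hω).symm⟩, fun s => zb' (χ₁ s), fun ω _ => by
      show zb' (vg b J F ω) = zb' (χ₁ (vg w₁ J F ω))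
      rw [hχ₁ ω]⟩
  have c2 : Cl2 (ptr F J) (vg x' J F) A (fun ω => zb' (slam F ⌊b * J⌋₊ ω)) :=
    ⟨⟨zb, fun ω hω => (hl.cls ω hω).symm⟩, fun s => zb' (χ₂ s), fun ω _ => by
      show zb' (vg b J F ω) = zb' (χ₂ (vg x' J F ω))
      rw [hχ₂ ω]⟩
  have m1 := (hz.2 _ _ c1).trans (mul_le_mul_of_nonneg_right (min_le_right k₂ (h / 8)) hJ0)
  have m2 := (hz'.2 _ _ c2).trans (mul_le_mul_of_nonneg_right (min_le_right k₂ (h / 8)) hJ0)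
  -- the two codes
  have hPle : (2 : ℝ) ^ ⌊P * J⌋₊ ≤ 2 ^ (P * J) := p2_le (mul_nonneg hP hJ0)
  have hPge : (2 : ℝ) ^ (P * J) ≤ 2 * 2 ^ ⌊P * J⌋₊ := by
    have h2 : P * J ≤ (⌊P * J⌋₊ : ℝ) + 1 := (Nat.lt_floor_add_one _).le
    have h3 : (2 : ℝ) ^ (P * J) ≤ 2 ^ ((⌊P * J⌋₊ : ℝ) + 1) :=
      Real.rpow_le_rpow_of_exponent_le one_le_two h2
    rw [Real.rpow_add two_pos, Real.rpow_one, Real.rpow_natCast] at h3
    linarith
  have p1 : (0 : ℝ) < 2 ^ (P * (J : ℝ)) := Real.rpow_pos_of_pos (by norm_num) _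
  have p2 : (0 : ℝ) < 2 ^ ⌊P * J⌋₊ := by positivity
  have hoj : ∀ ω ν, A ω → A ν → F.T ω = F.T ν →
      zb' (slam F ⌊b * J⌋₊ ω) = zb' (slam F ⌊b * J⌋₊ ν) →
      F.d ω (c 0) - F.d ν (c 0) = ojet F (c 0) 1 (Gb (zb' (slam F ⌊b * J⌋₊ ω))) ω -
        ojet F (c 0) 1 (Gb (zb' (slam F ⌊b * J⌋₊ ν))) ν := by
    intro ω ν hω hν hT hzz
    rw [← hzz]
    exact (Pool.T4D63.ojet_dif F (c 0) (Q := Gb (zb' (slam F ⌊b * J⌋₊ ω))) (fun b b' hb =>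
      hl.dep _ b b' hb (by simp)) hT).2
  have hub' : ∀ ω, A ω → u ω 0 = ⌊(2 : ℝ) ^ (P * J) *
      ojet F (c 0) 1 (Gb (zb' (slam F ⌊b * J⌋₊ ω))) ω⌋ := hub
  have s1 : CH (Pool.Agent.H49.Ent.cond F.p A True) (fun ω => F.D ⌊P * J⌋₊ ω (c 0))
      (fun ω => (u ω, (zb' (slam F ⌊b * J⌋₊ ω), F.W ω))) ≤ Real.log 5 := by
    refine (CH_osc hcl _ _ (K := 2) fun ω ν hω hν e => ?_).trans (le_of_eq (by norm_num))
    simp only [Prod.mk.injEq] at e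
    obtain ⟨e1, e2, e3⟩ := e
    have hω' := of_cond_pos hω
    have hν' := of_cond_pos hν
    have h2 := hoj ω ν hω' hν' (Prod.ext_iff.mp e3).1 e2
    have h3 := congrFun e1 0
    rw [hub' ω hω', hub' ν hν'] at h3
    have h4 := nr_fl h3
    rw [← mul_sub, ← h2, abs_mul, abs_of_pos p1] at h4
    have h5 : |(2 : ℝ) ^ ⌊P * J⌋₊ * F.d ω (c 0) - 2 ^ ⌊P * J⌋₊ * F.d ν (c 0)| ≤ 1 := by
      rw [← mul_sub, abs_mul, abs_of_pos p2]
      exact (mul_le_mul_of_nonneg_right hPle (abs_nonneg _)).trans h4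
    have h6 := fl_dif h5
    push_cast
    show |((⌊(2 : ℝ) ^ ⌊P * J⌋₊ * F.d ω (c 0)⌋ : ℤ) : ℝ) - ⌊(2 : ℝ) ^ ⌊P * J⌋₊ * F.d ν (c 0)⌋| ≤ _
    linarith
  have s2 : CH (Pool.Agent.H49.Ent.cond F.p A True) u
      (fun ω => (F.D ⌊P * J⌋₊ ω (c 0), (zb' (slam F ⌊b * J⌋₊ ω), F.W ω))) ≤ Real.log 7 := by
    have h9 := CH_oscv hcl (n := 1) u
      (fun ω => (F.D ⌊P * J⌋₊ ω (c 0), (zb' (slam F ⌊b * J⌋₊ ω), F.W ω))) (K := 3) ?_
    · refine h9.trans (le_of_eq ?_)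
      norm_num
    intro ω ν hω hν e i
    obtain rfl : i = 0 := Subsingleton.elim _ _
    simp only [Prod.mk.injEq] at e
    obtain ⟨e1, e2, e3⟩ := e
    have hω' := of_cond_pos hω
    have hν' := of_cond_pos hν
    have h2 := hoj ω ν hω' hν' (Prod.ext_iff.mp e3).1 e2
    have h4 : |(2 : ℝ) ^ ⌊P * J⌋₊ * F.d ω (c 0) - 2 ^ ⌊P * J⌋₊ * F.d ν (c 0)| ≤ 1 :=
      nr_fl e1
    rw [← mul_sub, abs_mul, abs_of_pos p2] at h4
    rw [hub' ω hω', hub' ν hν']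
    have h5 : |(2 : ℝ) ^ (P * J) * ojet F (c 0) 1 (Gb (zb' (slam F ⌊b * J⌋₊ ω))) ω -
        2 ^ (P * J) * ojet F (c 0) 1 (Gb (zb' (slam F ⌊b * J⌋₊ ν))) ν| ≤ 2 := by
      rw [← mul_sub, ← h2, abs_mul, abs_of_pos p1]
      have := mul_le_mul_of_nonneg_right hPge (abs_nonneg (F.d ω (c 0) - F.d ν (c 0)))
      linarith
    have h6 := fl_dif h5
    push_cast
    linarith
  -- from the raw digits to the jets and back
  have t1 := CH_le_add hp (fun ω => F.D ⌊P * J⌋₊ ω (c 0)) u (fun ω => (z ω, F.W ω))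
  have t2 := CH_le_add hp (fun ω => F.D ⌊P * J⌋₊ ω (c 0))
    (fun ω => zb' (slam F ⌊b * J⌋₊ ω)) (fun ω => (u ω, (z ω, F.W ω)))
  have t3 : CH (Pool.Agent.H49.Ent.cond F.p A True) (fun ω => zb' (slam F ⌊b * J⌋₊ ω))
      (fun ω => (u ω, (z ω, F.W ω))) ≤
      CH (Pool.Agent.H49.Ent.cond F.p A True) (fun ω => zb' (slam F ⌊b * J⌋₊ ω)) z :=
    CH_mono_cond hp fun _ _ _ _ e => by
      simp only [Prod.mk.injEq] at e
      exact e.2.1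
  have t4 : CH (Pool.Agent.H49.Ent.cond F.p A True) (fun ω => F.D ⌊P * J⌋₊ ω (c 0))
      (fun ω => (zb' (slam F ⌊b * J⌋₊ ω), (u ω, (z ω, F.W ω)))) ≤
      CH (Pool.Agent.H49.Ent.cond F.p A True) (fun ω => F.D ⌊P * J⌋₊ ω (c 0))
        (fun ω => (u ω, (zb' (slam F ⌊b * J⌋₊ ω), F.W ω))) :=
    CH_mono_cond hp fun _ _ _ _ e => by
      simp only [Prod.mk.injEq] at e ⊢
      exact ⟨e.2.1, e.1, e.2.2.2⟩
  have v1 := CH_le_add hp u (fun ω => F.D ⌊P * J⌋₊ ω (c 0)) (fun ω => (z' ω, F.W ω))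
  have v2 := CH_le_add hp u
    (fun ω => zb' (slam F ⌊b * J⌋₊ ω)) (fun ω => (F.D ⌊P * J⌋₊ ω (c 0), (z' ω, F.W ω)))
  have v3 : CH (Pool.Agent.H49.Ent.cond F.p A True) (fun ω => zb' (slam F ⌊b * J⌋₊ ω))
      (fun ω => (F.D ⌊P * J⌋₊ ω (c 0), (z' ω, F.W ω))) ≤
      CH (Pool.Agent.H49.Ent.cond F.p A True) (fun ω => zb' (slam F ⌊b * J⌋₊ ω)) z' :=
    CH_mono_cond hp fun _ _ _ _ e => by
      simp only [Prod.mk.injEq] at e
      exact e.2.1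
  have v4 : CH (Pool.Agent.H49.Ent.cond F.p A True) u
      (fun ω => (zb' (slam F ⌊b * J⌋₊ ω), (F.D ⌊P * J⌋₊ ω (c 0), (z' ω, F.W ω)))) ≤
      CH (Pool.Agent.H49.Ent.cond F.p A True) u
        (fun ω => (F.D ⌊P * J⌋₊ ω (c 0), (zb' (slam F ⌊b * J⌋₊ ω), F.W ω))) :=
    CH_mono_cond hp fun _ _ _ _ e => by
      simp only [Prod.mk.injEq] at e ⊢
      exact ⟨e.2.1, e.1, e.2.2.2⟩
  have e1 : (κ + h) * (J : ℝ) = κ * J + (h / 2 * J + (h / 8 * J + h / 8 * J) + h / 4 * J) := by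
    ring
  have e2 : 0 ≤ h / 4 * (J : ℝ) := by positivity
  linarith

/-- **The position of the base at a deep record.** -/
theorem pos_rec {S : PCl m} {c : ℕ → Fin m} {x' p r N₀ : ℝ}
    (hatt : Att S ((range 0).image c) (c 0) x' p r) (hN : N₀ < p) :
    Bas S (fun J F A => ∀ B : F.Ω → Prop, Sub B A → ∀ ω ν, B ω → B ν →
      cR F B x' ω = cR F B x' ν → F.W ω = F.W ν → ∀ N : ℕ, (N : ℝ) ≤ N₀ * J →
      |(F.X N ω (c 0) : ℝ) - F.X N ν (c 0)| ≤ (3 : ℕ)) := by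
  obtain ⟨K, hK⟩ := hatt (p - N₀) (by linarith)
  refine Bas.mono 0 hK ?_
  rintro J - F A ⟨V, z, z', G, hl⟩ B hB ω ν hω hν hR hW N hNJ
  have hc : Cl2 (ptr F J) (vg x' J F) B (fun ω => z' (slam F ⌊x' * J⌋₊ ω)) :=
    ⟨⟨z, fun ω hω => (hl.cls ω (hB ω hω)).symm⟩, z', fun ω _ => rfl⟩
  have h1 := Pool.NS95.cR_cl F B x' hc hR
  have hT : F.T ω = F.T ν := (Prod.ext_iff.mp hW).1
  have h2 := (Pool.T4D63.ojet_dif F (c 0) (Q := G (z' (slam F ⌊x' * J⌋₊ ω))) (fun b b' hb =>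
      hl.dep _ b b' hb (by simp)) hT).1
  have h3 := hl.pos ω (hB ω hω)
  have h4 := hl.pos ν (hB ν hν)
  rw [← h1] at h4
  have e1 : (p - (p - N₀)) * (J : ℝ) = N₀ * J := by ring
  rw [e1] at h3 h4
  have hN' : N ≤ ⌊N₀ * J⌋₊ := Nat.le_floor hNJ
  have h5 : (1 : ℝ) / 2 ^ ⌊N₀ * J⌋₊ ≤ 1 / 2 ^ N :=
    div_le_div_of_nonneg_left zero_le_one (by positivity) (pow_le_pow_right₀ (by norm_num) hN')
  have e2 : eval (bt F ω) (G (z' (slam F ⌊x' * J⌋₊ ω))) =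
      eval (bt F ν) (G (z' (slam F ⌊x' * J⌋₊ ω))) := by
    refine hl.dep _ _ _ ?_ (by simp)
    show (F.T ω : ℝ) / 2 ^ J = (F.T ν : ℝ) / 2 ^ J
    rw [hT]
  rw [e2] at h3
  have h6 : |F.x ω (c 0) - F.x ν (c 0)| ≤ 2 * (1 / 2 ^ N) := by
    have a1 := abs_le.1 (h3.trans h5)
    have a2 := abs_le.1 (h4.trans h5)
    rw [abs_le]
    constructor <;> linarith [a1.1, a1.2, a2.1, a2.2]
  have p0 : (0 : ℝ) < 2 ^ N := by positivity
  have h7 : |(2 : ℝ) ^ N * F.x ω (c 0) - 2 ^ N * F.x ν (c 0)| ≤ 2 := by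
    rw [← mul_sub, abs_mul, abs_of_pos p0]
    refine (mul_le_mul_of_nonneg_left h6 p0.le).trans (le_of_eq ?_)
    field_simp
  have h8 := fl_dif h7
  push_cast
  show |((⌊(2 : ℝ) ^ N * F.x ω (c 0)⌋ : ℤ) : ℝ) - ⌊(2 : ℝ) ^ N * F.x ν (c 0)⌋| ≤ _
  linarith

end Pool.NS71
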