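import Pool.Agent.H71.NS.Ns2
import Pool.Agent.H71.NS.Ns3
import Pool.Agent.H62.T4.Num4
import Pool.Agent.H54.PRC.Ura

/-!
# Near-dead from far-dead: one family

`near_smp`: the velocities of the targets given the record, the exact time and the near path of the
base, on a part of an event.
-/

set_option autoImplicit false

namespace Pool.NS71

open Finset Real MvPolynomial
open Pool.Agent.H49.Ent Pool.Agent.H32.Dense Pool.STK Pool.KA Pool.KSAT Pool.K2S Pool.PB Pool.GEN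
open Pool.S6C Pool.RCD Pool.LA91 Pool.V0F Pool.FVL91
open Pool.GRD (LbP)
open Pool.PRC54 (yQ)
open Pool.PR46 (P1)
open Pool.NS95 (tD bL vfL)

variable {m J : ℕ}

theorem X_div (F : Fam m J) (a k : ℕ) (ω : F.Ω) (i : Fin m) :
    F.X a ω i = F.X (a + k) ω i / 2 ^ k := by
  show ⌊(2 : ℝ) ^ a * F.x ω i⌋ = ⌊(2 : ℝ) ^ (a + k) * F.x ω i⌋ / 2 ^ k
  have e2 := Int.floor_div_natCast ((2 : ℝ) ^ (a + k) * F.x ω i) (2 ^ k)
  push_cast at e2
  rw [← e2, pow_add _ a k]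
  congr 1
  field_simp

theorem D_div (F : Fam m J) (a k : ℕ) (ω : F.Ω) (i : Fin m) :
    F.D a ω i = F.D (a + k) ω i / 2 ^ k := by
  show ⌊(2 : ℝ) ^ a * F.d ω i⌋ = ⌊(2 : ℝ) ^ (a + k) * F.d ω i⌋ / 2 ^ k
  have e2 := Int.floor_div_natCast ((2 : ℝ) ^ (a + k) * F.d ω i) (2 ^ k)
  push_cast at e2
  rw [← e2, pow_add _ a k]
  congr 1
  field_simp

theorem X_co (F : Fam m J) {a b : ℕ} (h : a ≤ b) {ω ν : F.Ω} {i : Fin m}
    (e : F.X b ω i = F.X b ν i) : F.X a ω i = F.X a ν i := by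
  obtain ⟨k, rfl⟩ := Nat.exists_eq_add_of_le h
  rw [X_div F a k ω i, X_div F a k ν i, e]

theorem D_co (F : Fam m J) {a b : ℕ} (h : a ≤ b) {ω ν : F.Ω} {i : Fin m}
    (e : F.D b ω i = F.D b ν i) : F.D a ω i = F.D a ν i := by
  obtain ⟨k, rfl⟩ := Nat.exists_eq_add_of_le h
  rw [D_div F a k ω i, D_div F a k ν i, e]

/-- The own velocity over an affine polynomial is a function of the direction. -/
theorem ojet_ln (F : Fam m J) {k : Fin m} {G : MvPolynomial (Option (Fin m)) ℝ}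
    (hG : G.totalDegree ≤ 1) {ω ν : F.Ω} (h : F.d ω = F.d ν) :
    ojet F k 1 G ω = ojet F k 1 G ν := by
  have h1 : (X (some k) - G : MvPolynomial (Option (Fin m)) ℝ).totalDegree ≤ 1 :=
    (totalDegree_sub _ _).trans (max_le (by rw [totalDegree_X]) hG)
  have h2 : bd F ω = bd F ν := by
    funext o
    cases o with
    | none => rfl
    | some i => exact congrFun h i
  unfold ojet
  rw [jet_aff h1, jet_aff h1, h2]

/-- The numbers of the ratio lemma. -/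
theorem rat_num (n₀ r : ℕ) : (2 * (n₀ : ℝ) + 1) * Real.log (2 * ((2 ^ r + 6 : ℕ) : ℝ) + 1) +
    Real.log (2 ^ (r + 1) + 2 * ((2 ^ r + 6 : ℕ) : ℝ) + 3) ≤ (2 * n₀ + 2) * (r + 6) := by
  have hl0 : 0 < Real.log 2 := Real.log_pos one_lt_two
  have hl1 : Real.log 2 ≤ 1 := by
    have := Real.log_two_lt_d9
    linarith
  have hr0 : (0 : ℝ) ≤ r := Nat.cast_nonneg r
  have p1 : (1 : ℝ) ≤ 2 ^ r := one_le_pow₀ (by norm_num)
  have h1 : Real.log (2 * ((2 ^ r + 6 : ℕ) : ℝ) + 1) ≤ r + 6 := by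
    have e1 : 2 * ((2 ^ r + 6 : ℕ) : ℝ) + 1 ≤ 2 ^ (r + 6) := by
      push_cast
      rw [pow_add]
      nlinarith
    have e2 := Real.log_le_log (by positivity) e1
    rw [Real.log_pow] at e2
    push_cast at e2
    have e3 : ((r : ℝ) + 6) * Real.log 2 ≤ (r + 6) * 1 :=
      mul_le_mul_of_nonneg_left hl1 (by linarith)
    push_cast
    linarith
  have h2 : Real.log (2 ^ (r + 1) + 2 * ((2 ^ r + 6 : ℕ) : ℝ) + 3) ≤ r + 6 := by
    have e1 : 2 ^ (r + 1) + 2 * ((2 ^ r + 6 : ℕ) : ℝ) + 3 ≤ 2 ^ (r + 6) := by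
      push_cast
      rw [pow_add, pow_add]
      nlinarith
    have e2 := Real.log_le_log (by positivity) e1
    rw [Real.log_pow] at e2
    push_cast at e2
    have e3 : ((r : ℝ) + 6) * Real.log 2 ≤ (r + 6) * 1 :=
      mul_le_mul_of_nonneg_left hl1 (by linarith)
    push_cast
    linarith
  have h3 : (2 * (n₀ : ℝ) + 1) * Real.log (2 * ((2 ^ r + 6 : ℕ) : ℝ) + 1) ≤
      (2 * n₀ + 1) * (r + 6) := mul_le_mul_of_nonneg_left h1 (by positivity)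
  linarith

/-- **Near-dead from far-dead**, one family. -/
theorem near_smp {f N : ℕ} {F : Fam m J} {A Bad : F.Ω → Prop} {c : ℕ → Fin m} {w w₁ x' : ℝ}
    {v : ℕ → ℝ} {t : ℕ → ℕ → PtT F → MvPolynomial (Option (Fin m)) ℝ}
    {t' : ℕ → ℕ → LnT F → MvPolynomial (Option (Fin m)) ℝ} {P : ℕ → ℕ → ℕ}
    {Nn Nf : ℕ → ℝ} {u : F.Ω → ℕ → ℤ} {M Q n NX r : ℕ} {Pn ln Pf lf e e₁ e₂ e₄ ef δ : ℝ}
    (ht : ∀ j ≤ N, ∀ l ≤ f, PLb F c l ⌊v j * J⌋₊ (P j l) A (t j l) (t' j l))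
    (v0 : v 0 = w) (hvx : ∀ j ≤ N, v j ≤ x') (hx1 : x' ≤ 1) (hw1 : w ≤ w₁) (hwx : w₁ ≤ x')
    (hB : 0 < Pe F.p (fun ω => A ω ∧ ¬ Bad ω))
    (hcut : ∀ ω, A ω → ¬ Bad ω → ∀ l ≤ f,
      |ojet F (c (1 + l)) 1 (t' 0 l (slam F ⌊w * J⌋₊ ω)) ω| ≤ 2 ^ (((1 : ℕ) + 1 : ℝ) * J))
    (hgd : ∀ ω ω', A ω → A ω' → ¬ Bad ω → ¬ Bad ω' →
      (∀ j ≤ N, ∀ l ≤ f, t' j l (slam F ⌊v j * J⌋₊ ω) = t' j l (slam F ⌊v j * J⌋₊ ω')) →
      F.D n ω (c 0) = F.D n ω' (c 0) → ∀ l ≤ f,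
      |(2 : ℝ) ^ (Nn l * J) * ojet F (c (1 + l)) 1 (t' 0 l (slam F ⌊w * J⌋₊ ω)) ω -
        2 ^ (Nn l * J) * ojet F (c (1 + l)) 1 (t' 0 l (slam F ⌊w * J⌋₊ ω')) ω'| ≤ 1)
    (hNn : ∀ l ≤ f, Nn l ≤ Nf l)
    (hu : ∀ ω, A ω → ∀ l ≤ f, u ω l = cfl 1 J (Nn l)
      (ojet F (c (1 + l)) 1 (t' 0 l (slam F ⌊w * J⌋₊ ω)) ω))
    (hu0 : ∀ ω, A ω → ∀ l, ¬ l < f + 1 → u ω l = 0)
    -- the digits
    (hJ : ⌊w₁ * J⌋₊ + M ≤ J) (hn : n ≤ Q) (hNX : ⌊w₁ * J⌋₊ + M + Q ≤ NX) (hr : Q - n + 1 ≤ r)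
    (hPf : ⌊Pf * J⌋₊ ≤ ⌊w₁ * J⌋₊ + M + Q) (hlf : ⌊lf * J⌋₊ ≤ M + Q)
    (hPn : ⌊w₁ * J⌋₊ + Q ≤ ⌊Pn * J⌋₊) (hln : n ≤ ⌊ln * J⌋₊)
    -- the law
    (far : CH (Pool.Agent.H49.Ent.cond F.p (fun ω => A ω ∧ ¬ Bad ω) True)
      (fun ω (l : ℕ) => if l < f + 1 then cfl 1 J (Nf l)
        (ojet F (c (1 + l)) 1 (t' 0 l (slam F ⌊w * J⌋₊ ω)) ω) else 0)
      (fun ω => (cR F A w₁ ω, yQ ((range 1).image c) Pf lf J F ω)) ≤ ef)
    (full : M * Real.log 2 - e ≤ CH (Pool.Agent.H49.Ent.cond F.p (fun ω => A ω ∧ ¬ Bad ω) True)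
      (tD F ⌊w₁ * J⌋₊ M) (slam F ⌊w₁ * J⌋₊))
    (time : ∀ (R' : Type) (R : LnT F → R'),
      (∀ ω ω', 0 < Pool.Agent.H49.Ent.cond F.p (fun ω => A ω ∧ ¬ Bad ω) True ω →
        0 < Pool.Agent.H49.Ent.cond F.p (fun ω => A ω ∧ ¬ Bad ω) True ω' →
        R (slam F ⌊w₁ * J⌋₊ ω) = R (slam F ⌊w₁ * J⌋₊ ω') → F.Z ω = F.Z ω' ∧
          F.T1 ⌊w₁ * J⌋₊ ω = F.T1 ⌊w₁ * J⌋₊ ω') →
      CH (Pool.Agent.H49.Ent.cond F.p (fun ω => A ω ∧ ¬ Bad ω) True) F.W
        (fun ω => R (slam F ⌊w₁ * J⌋₊ ω)) - e₁ ≤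
      CH (Pool.Agent.H49.Ent.cond F.p (fun ω => A ω ∧ ¬ Bad ω) True) F.W (slam F ⌊w₁ * J⌋₊))
    (free : CH (Pool.Agent.H49.Ent.cond F.p (fun ω => A ω ∧ ¬ Bad ω) True)
        (fun ω => F.D (M + Q) ω (c 0)) (fun ω => (cR F A w₁ ω, F.W ω)) ≤
      CH (Pool.Agent.H49.Ent.cond F.p (fun ω => A ω ∧ ¬ Bad ω) True)
        (fun ω => F.D (M + Q) ω (c 0))
        (fun ω => (cR F (fun ω => A ω ∧ ¬ Bad ω) x' ω, F.W ω)) + e₂)
    (hx : CH (Pool.Agent.H49.Ent.cond F.p (fun ω => A ω ∧ ¬ Bad ω) True)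
      (fun ω => F.X NX ω (c 0))
      (fun ω => (cR F (fun ω => A ω ∧ ¬ Bad ω) x' ω, F.W ω)) ≤ e₄)
    (he₁ : e₁ ≤ e) (he : e₁ + e₂ + 0 + e₄ ≤ e) (hef : ef + (f + 1) * Real.log 5 ≤ e)
    (sep : Pe (P1 (Pool.Agent.H49.Ent.cond F.p (fun ω => A ω ∧ ¬ Bad ω) True)
      (fun ω => (cR F (fun ω => A ω ∧ ¬ Bad ω) x' ω,
        (F.W ω, (F.D n ω (c 0), F.X NX ω (c 0))))))
      (fun p => ¬ 1 ≤ |bL M Q (c 0) (slam F ⌊w₁ * J⌋₊ p.1)
        (vfL (M + Q) (c 0) (slam F ⌊w₁ * J⌋₊ p.2))|) ≤ δ) :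
    CH (Pool.Agent.H49.Ent.cond F.p (fun ω => A ω ∧ ¬ Bad ω) True) u
      (fun ω => (cR F A w₁ ω, yQ ((range 1).image c) Pn ln J F ω)) ≤
      5 * e + (2 * ((f : ℝ) + 1) + 2) * (r + 6) + δ * ((M + 2) * Real.log 2) := by
  classical
  have hJ0 : (0 : ℝ) ≤ J := Nat.cast_nonneg J
  obtain ⟨B, hBdef⟩ : ∃ B : F.Ω → Prop, B = fun ω => A ω ∧ ¬ Bad ω := ⟨_, rfl⟩
  rw [← hBdef] at hB far full time free hx sep ⊢
  have hBA : Sub B A := fun ω hω => by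
    rw [hBdef] at hω
    exact hω.1
  have hBb : ∀ ω, B ω → ¬ Bad ω := fun ω hω => by
    rw [hBdef] at hω
    exact hω.2
  have hcl := isLaw_cond F.isLaw hB
  have hp := hcl.nonneg
  have hw₁J : ⌊w₁ * J⌋₊ ≤ J := by omega
  have hwJ : ⌊w * J⌋₊ ≤ ⌊w₁ * J⌋₊ := Nat.floor_le_floor (mul_le_mul_of_nonneg_right hw1 hJ0)
  obtain ⟨W, hW⟩ : ∃ W, W = ⌊w₁ * J⌋₊ := ⟨_, rfl⟩
  rw [← hW] at hJ hNX hPf hPn full time sep hw₁J hwJ
  -- the line determines the code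
  have huL : ∀ ω ν, A ω → A ν → slam F W ω = slam F W ν → u ω = u ν := by
    intro ω ν hω hν e
    have e1 : slam F ⌊w * J⌋₊ ω = slam F ⌊w * J⌋₊ ν := by
      rw [slam_coarse F hwJ hw₁J ω, slam_coarse F hwJ hw₁J ν, e]
    have e2 : F.d ω = F.d ν := congrArg Prod.snd (congrArg Prod.fst e)
    funext l
    by_cases hl : l < f + 1
    · rw [hu ω hω l (by omega), hu ν hν l (by omega), e1]
      have h1 := (ht 0 (Nat.zero_le N) l (by omega)).deg (slam F ⌊w * J⌋₊ ν)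
      rw [ojet_ln F h1 e2]
    · rw [hu0 ω hω l hl, hu0 ν hν l hl]
  obtain ⟨D, hD⟩ : ∃ D : LnT F → Fin (f + 1) → ℤ, ∀ ω, A ω → ∀ l, D (slam F W ω) l = u ω l := by
    refine ⟨fun s l => if h : ∃ ω, A ω ∧ slam F W ω = s then u h.choose l else 0,
      fun ω hω l => ?_⟩
    have h1 : ∃ ω', A ω' ∧ slam F W ω' = slam F W ω := ⟨ω, hω, rfl⟩
    simp only [dif_pos h1]
    rw [huL _ _ h1.choose_spec.1 hω h1.choose_spec.2]
  obtain ⟨R, hR⟩ := Pool.NS95.cR_line F A w₁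
  rw [← hW] at hR
  -- the own velocities
  obtain ⟨o, ho⟩ : ∃ o : ℕ → F.Ω → ℝ, o = fun l ω =>
    ojet F (c (1 + l)) 1 (t' 0 l (slam F ⌊w * J⌋₊ ω)) ω := ⟨_, rfl⟩
  have hcut' : ∀ ω, B ω → ∀ l ≤ f, |o l ω| ≤ 2 ^ (((1 : ℕ) + 1 : ℝ) * J) := fun ω hω l hl => by
    rw [ho]
    exact hcut ω (hBA ω hω) (hBb ω hω) l hl
  have hub : ∀ ω, B ω → ∀ l ≤ f, u ω l = ⌊(2 : ℝ) ^ (Nn l * J) * o l ω⌋ := fun ω hω l hl => by
    rw [hu ω (hBA ω hω) l hl, ← cfl_eq (hcut' ω hω l hl), ho]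
  -- the record of the window determines the earlier one
  have hrec : ∀ ω ν, B ω → B ν → cR F B x' ω = cR F B x' ν → cR F A w₁ ω = cR F A w₁ ν := by
    intro ω ν _ _ e
    obtain ⟨χ, hχ⟩ := vg_mono hwx hx1 J F
    exact Pool.NS95.cR_cl F B x' (((Pool.VG83.cl_cR F A w₁).sub hBA).mono
      ⟨fun x => x, fun _ _ => rfl⟩ ⟨χ, fun ω _ => hχ ω⟩) e
  have hlab : ∀ ω ν, B ω → B ν → cR F B x' ω = cR F B x' ν → ∀ j ≤ N, ∀ l ≤ f,
      t' j l (slam F ⌊v j * J⌋₊ ω) = t' j l (slam F ⌊v j * J⌋₊ ν) := by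
    intro ω ν _ _ e j hj l hl
    obtain ⟨χ, hχ⟩ := vg_mono (hvx j hj) hx1 J F
    have h1 : Cl2 (ptr F J) (vg x' J F) B (fun ω => t' j l (slam F ⌊v j * J⌋₊ ω)) :=
      ⟨⟨t j l, fun ω hω => ((ht j hj l hl).cls ω (hBA ω hω)).symm⟩, fun s => t' j l (χ s),
        fun ω _ => by
          show t' j l (vg (v j) J F ω) = t' j l (χ (vg x' J F ω))
          rw [hχ ω]⟩
    exact Pool.NS95.cR_cl F B x' h1 e
  -- the fields
  have hRag := Pool.NS95.rag_mk (F := F) (A := B) hB (i := c 0) (w := W) (M := M) (Q := Q)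
    (n := n) (N := NX) (r := r) (K := 2 ^ r + 6) hJ hn hNX hr le_rfl (R := R)
    (z' := cR F B x') (D := D) (e := e) (e₁ := e₁) (e₂ := e₂) (e₃ := 0) (e₄ := e₄) (δ := δ)
    (fun ω ω' hω hω' e => by
      rw [← hR ω (hBA ω hω), ← hR ω' (hBA ω' hω')]
      exact hrec ω ω' hω hω' e)
    (fun ω ω' hω hω' e1 _ e3 _ l => by
      rw [hD ω (hBA ω hω), hD ω' (hBA ω' hω'), hub ω hω l (by omega), hub ω' hω' l (by omega)]
      have h1 := hgd ω ω' (hBA ω hω) (hBA ω' hω') (hBb ω hω) (hBb ω' hω')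
        (hlab ω ω' hω hω' e1) e3 l (by omega)
      rw [ho]
      refine (fl_dif h1).trans ?_
      push_cast
      have : (1 : ℝ) ≤ 2 ^ r := one_le_pow₀ (by norm_num)
      linarith)
    (by
      -- few
      obtain ⟨Y, hY⟩ : ∃ Y : F.Ω → ℤ × (ℤ × (({D : F.Ω → Prop //
          Cl2 (ptr F J) (vg w₁ J F) A D} → Prop) × (ℕ × F.ζ))), Y = fun ω =>
        (F.D (M + Q) ω (c 0), (F.X (W + M + Q) ω (c 0), (R (slam F W ω), F.W ω))) := ⟨_, rfl⟩
      obtain ⟨uf, huf⟩ : ∃ uf : F.Ω → ℕ → ℤ, uf = fun ω (l : ℕ) => if l < f + 1 then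
        cfl 1 J (Nf l) (ojet F (c (1 + l)) 1 (t' 0 l (slam F ⌊w * J⌋₊ ω)) ω) else 0 := ⟨_, rfl⟩
      rw [← hY]
      rw [← huf] at far
      have s1 := CH_le_add hp (fun ω => D (slam F W ω)) uf Y
      have s2 : CH (Pool.Agent.H49.Ent.cond F.p B True) uf Y ≤ ef := by
        refine le_trans (CH_mono_cond hp fun ω ν hω hν e => ?_) far
        have hω' := of_cond_pos hω
        have hν' := of_cond_pos hν
        rw [hY] at e
        simp only [Prod.mk.injEq] at e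
        obtain ⟨e1, e2, e3, e4⟩ := e
        rw [← hR ω (hBA ω hω'), ← hR ν (hBA ν hν')] at e3
        have e5 : F.T ω = F.T ν := (Prod.ext_iff.mp e4).1
        have hI : ∀ i, i ∈ (range 1).image c → i = c 0 := fun i hi => by
          obtain ⟨l, hl, rfl⟩ := mem_image.1 hi
          rw [show l = 0 by have := mem_range.1 hl; omega]
        refine Prod.ext e3 (Prod.ext e5 (Prod.ext ?_ ?_))
        · funext i
          show (if i ∈ (range 1).image c then F.X ⌊Pf * J⌋₊ ω i else 0) =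
            if i ∈ (range 1).image c then F.X ⌊Pf * J⌋₊ ν i else 0
          split_ifs with hi
          · rw [hI i hi]
            exact X_co F hPf e2
          · rfl
        · funext i
          show (if i ∈ (range 1).image c then F.D ⌊lf * J⌋₊ ω i else 0) =
            if i ∈ (range 1).image c then F.D ⌊lf * J⌋₊ ν i else 0
          split_ifs with hi
          · rw [hI i hi]
            exact D_co F hlf e1
          · rfl
      have s3 : CH (Pool.Agent.H49.Ent.cond F.p B True) (fun ω => D (slam F W ω))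
          (fun ω => (uf ω, Y ω)) ≤ ((f + 1 : ℕ) : ℝ) * Real.log (2 * ((2 : ℕ) : ℝ) + 1) := by
        refine CH_oscv hcl _ _ fun ω ν hω hν e l => ?_
        have hω' := of_cond_pos hω
        have hν' := of_cond_pos hν
        have e1 := congrFun (Prod.ext_iff.mp e).1 (l : ℕ)
        rw [huf] at e1
        simp only [if_pos l.2] at e1
        have k1 := hcut' ω hω' l (by omega)
        have k2 := hcut' ν hν' l (by omega)
        rw [ho] at k1 k2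
        rw [cfl_eq k1, cfl_eq k2] at e1
        have e2 := nr_fl e1
        rw [hD ω (hBA ω hω'), hD ν (hBA ν hν'), hub ω hω' l (by omega), hub ν hν' l (by omega)]
        have e3 : |(2 : ℝ) ^ (Nn l * J) * o l ω - 2 ^ (Nn l * J) * o l ν| ≤ 1 := by
          have p1 := E_pos J (Nn l)
          have p2 := E_pos J (Nf l)
          rw [← mul_sub, abs_mul, abs_of_pos p2] at e2
          rw [← mul_sub, abs_mul, abs_of_pos p1, ho]
          exact (mul_le_mul_of_nonneg_right (E_mono J (hNn l (by omega)))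
            (abs_nonneg _)).trans e2
        refine (fl_dif e3).trans ?_
        push_cast
        norm_num
      have e1 : ((f + 1 : ℕ) : ℝ) * Real.log (2 * ((2 : ℕ) : ℝ) + 1) = (f + 1) * Real.log 5 := by
        push_cast
        norm_num
      linarith)
    full (time _ R fun ω ω' hω hω' e => by
      have hω'' := of_cond_pos hω
      have hν'' := of_cond_pos hω'
      rw [← hR ω (hBA ω hω''), ← hR ω' (hBA ω' hν'')] at e
      have e1 := Pool.NS95.cR_zt F A w₁ e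
      rw [← hW] at e1
      exact e1)
    (by
      have e1 : CH (Pool.Agent.H49.Ent.cond F.p B True) (fun ω => F.D (M + Q) ω (c 0))
          (fun ω => (R (slam F W ω), F.W ω)) ≤
          CH (Pool.Agent.H49.Ent.cond F.p B True) (fun ω => F.D (M + Q) ω (c 0))
          (fun ω => (cR F A w₁ ω, F.W ω)) := CH_mono_cond hp fun ω ν hω hν e => by
        have hω' := of_cond_pos hω
        have hν' := of_cond_pos hν
        simp only [Prod.mk.injEq] at e ⊢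
        rw [hR ω (hBA ω hω'), hR ν (hBA ν hν')]
        exact e
      linarith)
    (by
      rw [CH_eq_zero hp fun ω ν hω hν e => ?_]
      have hω' := of_cond_pos hω
      have hν' := of_cond_pos hν
      rw [← hR ω (hBA ω hω'), ← hR ν (hBA ν hν')]
      exact hrec ω ν hω' hν' e) hx he₁ he sep
  have hrat := hRag.ratio
  have hnum := rat_num (f + 1) r
  refine le_trans ?_ (hrat.trans ?_)
  · -- the conditions
    refine (CH_mono_left hp (X' := fun ω => D (slam F W ω)) fun ω ν hω hν e => ?_).trans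
      (CH_mono_cond hp fun ω ν hω hν e => ?_)
    · have hω' := of_cond_pos hω
      have hν' := of_cond_pos hν
      have e1 := (Prod.ext_iff.mp e).1
      funext l
      by_cases hl : l < f + 1
      · have e2 := congrFun e1 ⟨l, hl⟩
        simp only at e2
        rw [hD ω (hBA ω hω'), hD ν (hBA ν hν')] at e2
        exact e2
      · rw [hu0 ω (hBA ω hω') l hl, hu0 ν (hBA ν hν') l hl]
    · have hω' := of_cond_pos hω
      have hν' := of_cond_pos hν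
      have e1 : cR F A w₁ ω = cR F A w₁ ν := (Prod.ext_iff.mp e).1
      have e2 := (Prod.ext_iff.mp e).2
      have e3 : F.T ω = F.T ν := (Prod.ext_iff.mp e2).1
      have hI : c 0 ∈ (range 1).image c := mem_image_of_mem _ (by simp)
      have e4 : (if c 0 ∈ (range 1).image c then F.X ⌊Pn * J⌋₊ ω (c 0) else 0) =
        if c 0 ∈ (range 1).image c then F.X ⌊Pn * J⌋₊ ν (c 0) else 0 :=
        congrFun (Prod.ext_iff.mp (Prod.ext_iff.mp e2).2).1 (c 0)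
      have e5 : (if c 0 ∈ (range 1).image c then F.D ⌊ln * J⌋₊ ω (c 0) else 0) =
        if c 0 ∈ (range 1).image c then F.D ⌊ln * J⌋₊ ν (c 0) else 0 :=
        congrFun (Prod.ext_iff.mp (Prod.ext_iff.mp e2).2).2 (c 0)
      rw [if_pos hI, if_pos hI] at e4 e5
      have e6 := (Pool.NS95.cR_zt F A w₁ e1).1
      have e7 : W + M + Q = W + Q + M := by omega
      simp only [Prod.mk.injEq]
      refine ⟨?_, D_co F hln e5, ?_, Prod.ext e3 e6⟩
      · rw [e7, ← X_div F (W + Q) M ω (c 0), ← X_div F (W + Q) M ν (c 0)]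
        exact X_co F hPn e4
      · rw [← hR ω (hBA ω hω'), ← hR ν (hBA ν hν')]
        exact e1
  · push_cast at hnum ⊢
    linarith

end Pool.NS71
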