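import Pool.Agent.H71.NS.Ns4
import Pool.Agent.H62.OVN.Exh
import Pool.Agent.H83.REC.CNum
import Pool.Agent.H72.T4C.S
import Pool.Agent.H71.CDX.Cdl
import Pool.Agent.H25.BFL.PRDb

/-!
# Near-dead from far-dead: the inputs on the parts of large events

`mesh`: windows with small steps. `lab_ev`: labels at all windows of the mesh. `hgd_of`: the numbers of
`gd_cls`. `free_ev`, `far_ev`, `sep_ev`, `hx_ev`: the inputs of `near_smp` on parts. `few_up`: from a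
part of almost full measure to the whole.
-/

set_option autoImplicit false

namespace Pool.NS71

open Finset Real MvPolynomial
open Pool.Agent.H49.Ent Pool.Agent.H32.Dense Pool.STK Pool.KA Pool.KSAT Pool.K2S Pool.PB Pool.GEN
open Pool.S6C Pool.RCD Pool.LA91 Pool.V0F Pool.FVL91
open Pool.GRD (LbP)
open Pool.PRC54 (yQ)
open Pool.PR46 (P1)
open Pool.NS95 (tD bL vfL)
open Pool.BFL (Pb)
open Pool.CDX (AffL)
open Pool.T462 (FewN)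
open Pool.T4A95 (ActI)

variable {m : ℕ}

/-- **A mesh of windows.** -/
theorem mesh {G : Set ℝ} {w x' θ ρ : ℝ} (hw : w ∈ G) (hx : x' ∈ G) (hwx : w ≤ x')
    (hρ : 2 * ρ < θ) (hgap : ∀ x, w ≤ x → x ≤ x' → ∃ v ∈ G, |v - x| ≤ ρ) :
    ∃ (N : ℕ) (v : ℕ → ℝ), v 0 = w ∧ v N = x' ∧ (∀ j ≤ N, v j ∈ G ∧ w ≤ v j ∧ v j ≤ x') ∧
      ∀ j < N, v j ≤ v (j + 1) ∧ v (j + 1) - v j ≤ θ := by
  obtain ⟨n, hn⟩ := exists_nat_ge ((x' - w) / (θ - 2 * ρ))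
  rw [div_le_iff₀ (by linarith)] at hn
  obtain ⟨N, b, h1, h2, h3, h4⟩ := gseq hw hρ n x' hx hwx hn hgap
  refine ⟨N, fun j => b (N - j), ?_, ?_, fun j _ => ?_, fun j hj => ?_⟩
  · show b (N - 0) = w
    rw [Nat.sub_zero]
    exact h2
  · show b (N - N) = x'
    rw [Nat.sub_self]
    exact h1
  · exact h3 (N - j) (by omega)
  · have h5 := h4 (N - (j + 1)) (by omega)
    rw [show N - (j + 1) + 1 = N - j by omega] at h5
    exact ⟨h5.1, by linarith [h5.2]⟩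

/-- **Labels at all windows of the mesh.** -/
theorem lab_ev {S : PCl m} {c : ℕ → Fin m} {f N : ℕ} {v : ℕ → ℝ} {sn : ℕ → ℝ → ℝ} {w θ ε : ℝ}
    {bl pl : ℕ → ℝ} (v0 : v 0 = w) (hv1 : ∀ j ≤ N, v j ≤ 1) (hθ : 0 < θ)
    (hε : ε ≤ θ / 2)
    (hbl : ∀ l ≤ f, bl l ≤ w ∧ sn (1 + l) w - ε ≤ pl l)
    (hlb : ∀ j ≤ N, ∃ bl' pl' : ℕ → ℝ, ∀ l ≤ f, bl' l ≤ v j ∧ sn (1 + l) (v j) - ε ≤ pl' l ∧
      AffL S ((range (1 + l)).image c) (c (1 + l)) (bl' l) (pl' l)) {Nn : ℕ → ℝ} {e₀ : ℝ}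
    (he₀ : e₀ ≤ θ / 2) (K : ℕ) :
    Bas S (fun J F A => ∀ u, (qVel m c 1 (f + 1) 1 bl pl Nn).P K e₀ J F A u →
      ∃ (t : ℕ → ℕ → PtT F → MvPolynomial (Option (Fin m)) ℝ)
        (t' : ℕ → ℕ → LnT F → MvPolynomial (Option (Fin m)) ℝ) (P : ℕ → ℕ → ℕ),
      (∀ j ≤ N, ∀ l ≤ f, PLb F c l ⌊v j * J⌋₊ (P j l) A (t j l) (t' j l)) ∧
      (∀ j ≤ N, ∀ l ≤ f, (sn (1 + l) (v j) - θ) * J ≤ P j l + 1) ∧
      (∀ ω, A ω → ∀ l ≤ f, u ω l = cfl 1 J (Nn l)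
        (ojet F (c (1 + l)) 1 (t' 0 l (slam F ⌊w * J⌋₊ ω)) ω)) ∧
      (∀ ω, A ω → ∀ l, ¬ l < f + 1 → u ω l = 0) ∧
      ∀ (Nf : ℕ → ℝ) (K' : ℕ) (e₁ : ℝ), e₀ ≤ e₁ →
        (qVel m c 1 (f + 1) 1 bl pl Nf).P K' e₁ J F A (fun ω (l : ℕ) =>
          if l < f + 1 then cfl 1 J (Nf l)
            (ojet F (c (1 + l)) 1 (t' 0 l (slam F ⌊w * J⌋₊ ω)) ω) else 0)) := by
  classical
  have hb : Bas S (fun J F A => ∀ j < N + 1, ∀ l < f + 1,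
      ∃ (P : ℕ) (t : PtT F → MvPolynomial (Option (Fin m)) ℝ)
        (t' : LnT F → MvPolynomial (Option (Fin m)) ℝ),
      PLb F c l ⌊v j * J⌋₊ P A t t' ∧ (sn (1 + l) (v j) - θ) * J ≤ P + 1) := by
    refine Bas.all (N + 1) fun j hj => ?_
    obtain ⟨bl', pl', h1⟩ := hlb j (by omega)
    refine Bas.all (f + 1) fun l hl => ?_
    obtain ⟨h2, h3, h4⟩ := h1 l (by omega)
    refine Bas.mono 0 (h4 (θ / 2) (half_pos hθ)) ?_
    rintro J - F A ⟨V, z, z', G, hl⟩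
    have hJ0 : (0 : ℝ) ≤ J := Nat.cast_nonneg J
    refine ⟨_, _, _, (PLb.of hl).win (Nat.floor_le_floor (mul_le_mul_of_nonneg_right h2 hJ0))
      (floor_le (hv1 j (by omega)) J), ?_⟩
    have e1 := (Nat.lt_floor_add_one ((pl' l - θ / 2) * (J : ℝ))).le
    refine le_trans (mul_le_mul_of_nonneg_right ?_ hJ0) e1
    linarith
  refine Bas.mono 0 hb ?_
  rintro J - F A hb u ⟨hu, hu0⟩
  have hJ0 : (0 : ℝ) ≤ J := Nat.cast_nonneg J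
  have hw1 : w ≤ 1 := by
    rw [← v0]
    exact hv1 0 (Nat.zero_le N)
  have hwJ := floor_le hw1 J
  -- the labels of the given codes
  have hg : ∀ l, ∃ (t : PtT F → MvPolynomial (Option (Fin m)) ℝ)
      (t' : LnT F → MvPolynomial (Option (Fin m)) ℝ), l < f + 1 →
      PLb F c l ⌊w * J⌋₊ ⌊(pl l - e₀) * J⌋₊ A t t' ∧
      (∀ ω, A ω → u ω l = cfl 1 J (Nn l) (ojet F (c (1 + l)) 1 (t' (slam F ⌊w * J⌋₊ ω)) ω)) ∧
      ∀ (Nf : ℕ → ℝ) (K' : ℕ) (e₁ : ℝ), e₀ ≤ e₁ →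
        (qAf m ((range (1 + l)).image c) (c (1 + l)) 1 (bl l) (pl l) (Nf l)).P K' e₁ J F A
          (fun ω => cfl 1 J (Nf l) (ojet F (c (1 + l)) 1 (t' (slam F ⌊w * J⌋₊ ω)) ω)) := by
    intro l
    by_cases hl : l < f + 1
    · obtain ⟨V, z, z', G, h1, h2⟩ := hu l hl
      have h3 := (hbl l (by omega)).1
      have h4 : ⌊bl l * (J : ℝ)⌋₊ ≤ ⌊w * J⌋₊ :=
        Nat.floor_le_floor (mul_le_mul_of_nonneg_right h3 hJ0)
      have h5 : ∀ ω, ((slam F ⌊w * J⌋₊ ω).1, (slam F ⌊w * J⌋₊ ω).2.1,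
          (slam F ⌊w * J⌋₊ ω).2.2 / 2 ^ (⌊w * J⌋₊ - ⌊bl l * J⌋₊)) = slam F ⌊bl l * J⌋₊ ω :=
        fun ω => (slam_coarse F h4 hwJ ω).symm
      refine ⟨_, _, fun _ => ⟨(PLb.of h1).win h4 hwJ, fun ω hω => ?_, fun Nf K' e₁ he => ?_⟩⟩
      · rw [h5 ω]
        exact h2 ω hω
      · refine ⟨V, z, z', G, h1.mono (Finset.Subset.refl _) le_rfl
          (Nat.floor_le_floor (mul_le_mul_of_nonneg_right (by linarith) hJ0)), fun ω _ => ?_⟩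
        show cfl 1 J (Nf l) (ojet F (c (1 + l)) 1 (G (z' ((slam F ⌊w * J⌋₊ ω).1,
          (slam F ⌊w * J⌋₊ ω).2.1, (slam F ⌊w * J⌋₊ ω).2.2 / 2 ^ (⌊w * J⌋₊ - ⌊bl l * J⌋₊)))) ω) = _
        rw [h5 ω]
    · exact ⟨fun _ => 0, fun _ => 0, fun h => absurd h hl⟩
  choose t0 t0' h0 using hg
  have hj : ∀ j l, ∃ (P : ℕ) (t : PtT F → MvPolynomial (Option (Fin m)) ℝ)
      (t' : LnT F → MvPolynomial (Option (Fin m)) ℝ), j ≤ N → l ≤ f →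
      PLb F c l ⌊v j * J⌋₊ P A t t' ∧ (sn (1 + l) (v j) - θ) * J ≤ P + 1 := by
    intro j l
    by_cases h : j ≤ N ∧ l ≤ f
    · obtain ⟨P, t, t', h1⟩ := hb j (by omega) l (by omega)
      exact ⟨P, t, t', fun _ _ => h1⟩
    · exact ⟨0, fun _ => 0, fun _ => 0, fun h1 h2 => absurd ⟨h1, h2⟩ h⟩
  choose P t t' hP using hj
  refine ⟨fun j l => if j = 0 then t0 l else t j l, fun j l => if j = 0 then t0' l else t' j l,
    fun j l => if j = 0 then ⌊(pl l - e₀) * J⌋₊ else P j l, fun j hj l hl => ?_,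
    fun j hj l hl => ?_, fun ω hω l hl => ?_, hu0, fun Nf K' e₁ he => ⟨fun l hl => ?_,
    fun ω _ l hl => if_neg hl⟩⟩
  · by_cases h : j = 0
    · simp only [if_pos h]
      rw [h, v0]
      exact (h0 l (by omega)).1
    · simp only [if_neg h]
      exact (hP j l hj hl).1
  · by_cases h : j = 0
    · simp only [if_pos h]
      rw [h, v0]
      have e1 := (Nat.lt_floor_add_one ((pl l - e₀) * (J : ℝ))).le
      refine le_trans (mul_le_mul_of_nonneg_right ?_ hJ0) e1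
      linarith [(hbl l hl).2]
    · simp only [if_neg h]
      exact (hP j l hj hl).2
  · simp only [if_true]
    exact (h0 l (by omega)).2.1 ω hω
  · simp only [if_true]
    have h1 := (h0 l hl).2.2 Nf K' e₁ he
    have e1 : (fun ω => if l < f + 1 then cfl 1 J (Nf l)
        (ojet F (c (1 + l)) 1 (t0' l (slam F ⌊w * J⌋₊ ω)) ω) else 0) = fun ω =>
        cfl 1 J (Nf l) (ojet F (c (1 + l)) 1 (t0' l (slam F ⌊w * J⌋₊ ω)) ω) := by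
      funext ω
      exact if_pos hl
    rw [e1]
    exact h1

/-- **The numbers of the comparison.** -/
theorem hgd_of {J n : ℕ} {Nn sl s0 Pr vN θ' y x x' d : ℝ} (hd : |d| ≤ 1 / 2 ^ n)
    (hn : Pr * J ≤ n + 1) (h : |x' - x| ≤ 2 ^ ((θ' - sl) * J) * (2 ^ (vN * J) + 2 ^ (s0 * J) * |d|))
    (h1 : Nn + θ' - sl + vN ≤ -y) (h2 : Nn + θ' - sl + s0 - Pr ≤ -y)
    (hE : (3 : ℝ) ≤ 2 ^ (y * J)) : |(2 : ℝ) ^ (Nn * J) * x - 2 ^ (Nn * J) * x'| ≤ 1 := by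
  have p1 := E_pos J Nn
  have p2 := E_pos J y
  have e1 : |(2 : ℝ) ^ (Nn * J) * x - 2 ^ (Nn * J) * x'| = 2 ^ (Nn * J) * |x' - x| := by
    rw [← mul_sub, abs_mul, abs_of_pos p1, abs_sub_comm]
  have e2 : |d| ≤ 2 * 2 ^ (-Pr * J) := hd.trans (inv_P hn)
  have e3 : (2 : ℝ) ^ (Nn * J) * |x' - x| ≤ 2 ^ (Nn * J) * (2 ^ ((θ' - sl) * J) *
      (2 ^ (vN * J) + 2 ^ (s0 * J) * (2 * 2 ^ (-Pr * J)))) := by
    refine mul_le_mul_of_nonneg_left (h.trans ?_) p1.le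
    refine mul_le_mul_of_nonneg_left ?_ (E_pos J _).le
    have := mul_le_mul_of_nonneg_left e2 (E_pos J s0).le
    linarith
  have e4 : (2 : ℝ) ^ (Nn * J) * (2 ^ ((θ' - sl) * J) * (2 ^ (vN * J) +
      2 ^ (s0 * J) * (2 * 2 ^ (-Pr * J)))) = 2 ^ (Nn * J) * 2 ^ ((θ' - sl) * J) * 2 ^ (vN * J) +
      2 * (2 ^ (Nn * J) * 2 ^ ((θ' - sl) * J) * 2 ^ (s0 * J) * 2 ^ (-Pr * J)) := by ring
  rw [E_add, E_add, E_add, E_add] at e4
  have e5 : (2 : ℝ) ^ ((Nn + (θ' - sl) + vN) * J) ≤ 2 ^ (-y * J) := E_mono J (by linarith)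
  have e6 : (2 : ℝ) ^ ((Nn + (θ' - sl) + s0 + -Pr) * J) ≤ 2 ^ (-y * J) := E_mono J (by linarith)
  have e7 : 3 * (2 : ℝ) ^ (-y * J) ≤ 1 := by
    rw [neg_mul, Real.rpow_neg (by norm_num), ← div_eq_mul_inv, div_le_one p2]
    exact hE
  rw [e1]
  linarith

/-- **(free)** on the parts. -/
theorem free_ev {S : PCl m}
    (hpos : ∀ (τ : ℝ) (J : ℕ) (F : Fam m J) (A : F.Ω → Prop), S.St τ J F A → 0 < Pe F.p A)
    {c : ℕ → Fin m} {sp : ℕ → ℝ → ℝ} {b w₁ x' P κ r h η π₀ : ℝ} (hr : 0 ≤ r)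
    (hatt : Att S ((range 0).image c) (c 0) b (sp 0 b) r) (hb : b ≤ w₁) (hw : w₁ ≤ x')
    (hx : x' ≤ 1) (hP : 0 ≤ P) (hfr : FrI S c 1 sp b (fun _ => P) w₁ x' κ)
    (hη : RNum S (fun J F => ptr F J) (vg w₁) η) (hπ : 0 < π₀) (hh : 0 < h) :
    Bas S (fun J F A => ∀ B : F.Ω → Prop, Sub B A → π₀ * Pe F.p A ≤ Pe F.p B →
      CH (Pool.Agent.H49.Ent.cond F.p B True) (fun ω => F.D ⌊P * J⌋₊ ω (c 0))
          (fun ω => (cR F A w₁ ω, F.W ω)) ≤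
        CH (Pool.Agent.H49.Ent.cond F.p B True) (fun ω => F.D ⌊P * J⌋₊ ω (c 0))
          (fun ω => (cR F B x' ω, F.W ω)) + (κ + h) * J) := by
  obtain ⟨k, hk, H⟩ := fr_raw hpos hr hatt hb hw hx hP hfr hh
  refine Bas.mono 0 (((Pool.VG83.bas_ev H hπ).and (Pool.VG83.mx_ev hpos hη hk hπ)).and
    (pos_bas hpos)) ?_
  rintro J - F A ⟨⟨H1, H2⟩, hA⟩ B hB hm
  have hPB : 0 < Pe F.p B := lt_of_lt_of_le (mul_pos hπ hA) hm
  exact H1 B hB hm _ _ _ _ (H2 B hB hm) (mx_cR hPB x' hk.le)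

/-- **(far)** on the parts. -/
theorem far_ev {S : PCl m}
    (hpos : ∀ (τ : ℝ) (J : ℕ) (F : Fam m J) (A : F.Ω → Prop), S.St τ J F A → 0 < Pe F.p A)
    {U : Type} {y : ∀ (J : ℕ) (F : Fam m J), F.Ω → ℕ × (Fin m → ℤ) × (Fin m → ℤ)} {Q : Qt m U}
    {w w₁ df η h π₀ : ℝ} (hF : FewN S (fun J F => ptr F J) (vg w) y Q df)
    (hw : w ≤ w₁) (hw1 : w₁ ≤ 1) (hη : RNum S (fun J F => ptr F J) (vg w₁) η) (hπ : 0 < π₀)
    (hh : 0 < h) : ∃ e₀ : ℝ, 0 < e₀ ∧ ∀ K : ℕ, Bas S (fun J F A =>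
      ∀ B : F.Ω → Prop, Sub B A → π₀ * Pe F.p A ≤ Pe F.p B → ∀ u, Q.P K e₀ J F B u →
      CH (Pool.Agent.H49.Ent.cond F.p B True) u (fun ω => (cR F A w₁ ω, y J F ω)) ≤
        (df + h) * J) := by
  obtain ⟨e₀, he₀, H⟩ := hF (h / 2) (half_pos hh)
  refine ⟨e₀, he₀, fun K => Bas.mono 0 (((Pool.VG83.bas_ev (H K) hπ).and
    (Pool.VG83.mx_ev hpos hη (half_pos hh) hπ)).and (pos_bas hpos)) ?_⟩
  rintro J - F A ⟨⟨H1, H2⟩, hA⟩ B hB hm u hu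
  have hPB : 0 < Pe F.p B := lt_of_lt_of_le (mul_pos hπ hA) hm
  have hcl := isLaw_cond F.isLaw hPB
  have h0 := hcl.nonneg
  obtain ⟨V, z, hz, h1⟩ := H1 B hB hm u hu
  have h2 := mx_before (H2 B hB hm) hw hw1 hz
  have h5 := CH_le_add h0 u z (fun ω => (cR F A w₁ ω, y J F ω))
  have h6 : CH (Pool.Agent.H49.Ent.cond F.p B True) z (fun ω => (cR F A w₁ ω, y J F ω)) ≤
      CH (Pool.Agent.H49.Ent.cond F.p B True) z (cR F A w₁) :=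
    CH_mono_cond h0 fun _ _ _ _ hh => (Prod.ext_iff.mp hh).1
  have h7 : CH (Pool.Agent.H49.Ent.cond F.p B True) u
      (fun ω => (z ω, (cR F A w₁ ω, y J F ω))) ≤
      CH (Pool.Agent.H49.Ent.cond F.p B True) u (fun ω => (z ω, y J F ω)) := by
    refine CH_mono_cond h0 fun ω ω' _ _ hh => ?_
    simp only [Prod.mk.injEq] at hh ⊢
    exact ⟨hh.1, hh.2.2⟩
  have e1 : (df + h) * (J : ℝ) = (df + h / 2) * J + h / 2 * J := by ring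
  linarith

/-- **(sep)** on the parts. -/
theorem sep_ev {S : PCl m}
    (hpos : ∀ (τ : ℝ) (J : ℕ) (F : Fam m J) (A : F.Ω → Prop), S.St τ J F A → 0 < Pe F.p A)
    {i : Fin m} {a P Q : ℝ} (hA : ActI S i a P Q) (ha : 0 < a) (hPQ : P < Q) {δ π₀ : ℝ}
    (hδ : 0 < δ) (hπ : 0 < π₀) (x' : ℝ) :
    Bas S (fun J F A => ∀ B : F.Ω → Prop, Sub B A → π₀ * Pe F.p A ≤ Pe F.p B →
      ∀ w M NX : ℕ, NX ≤ J → Pe (P1 (Pool.Agent.H49.Ent.cond F.p B True)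
      (fun ω => (cR F B x' ω, (F.W ω, (F.D ⌊P * J⌋₊ ω i, F.X NX ω i)))))
        (fun v => ¬ 1 ≤ |bL M ⌊Q * J⌋₊ i (slam F w v.1)
          (vfL (M + ⌊Q * J⌋₊) i (slam F w v.2))|) ≤ δ) := by
  refine Bas.mono 0 (Pool.VG83.bas_ev (Pool.NS95.sep_cls hpos hA ha hPQ hδ) hπ) ?_
  rintro J - F A H B hB hm w M NX hNX
  refine H B hB hm w M _ _ fun ω ω' hω hω' e1 e2 e3 => ?_
  have hω := of_cond_pos hω
  have hω' := of_cond_pos hω'
  have hp : ptr F J ω = ptr F J ω' := by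
    have e4 : F.T ω = F.T ω' := (Prod.ext_iff.mp e3).1
    have e5 : F.Z ω = F.Z ω' := (Prod.ext_iff.mp e3).2
    show (F.X J ω, F.T ω, F.Z ω) = (F.X J ω', F.T ω', F.Z ω')
    rw [e2, e4, e5]
  exact Prod.ext (Pool.NS95.cR_pt F B x' hω hω' hp) (Prod.ext e3 (Prod.ext (congrFun e1 i)
    (X_co F hNX (congrFun e2 i))))

/-- **The position of the base at the deep record.** -/
theorem hx_ev {S : PCl m}
    (hpos : ∀ (τ : ℝ) (J : ℕ) (F : Fam m J) (A : F.Ω → Prop), S.St τ J F A → 0 < Pe F.p A)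
    {c : ℕ → Fin m} {x' p r N₀ π₀ : ℝ}
    (hatt : Att S ((range 0).image c) (c 0) x' p r) (hN : N₀ < p) (hπ : 0 < π₀) :
    Bas S (fun J F A => ∀ B : F.Ω → Prop, Sub B A → π₀ * Pe F.p A ≤ Pe F.p B →
      ∀ N : ℕ, (N : ℝ) ≤ N₀ * J →
      CH (Pool.Agent.H49.Ent.cond F.p B True) (fun ω => F.X N ω (c 0))
        (fun ω => (cR F B x' ω, F.W ω)) ≤ Real.log 7) := by
  refine Bas.mono 0 ((pos_rec hatt hN).and (pos_bas hpos)) ?_
  rintro J - F A ⟨H, hA⟩ B hB hm N hN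
  have hPB : 0 < Pe F.p B := lt_of_lt_of_le (mul_pos hπ hA) hm
  refine (CH_osc (isLaw_cond F.isLaw hPB) _ _ (K := 3) fun ω ω' hω hω' e => ?_).trans
    (le_of_eq (by norm_num))
  have e1 := Prod.ext_iff.mp e
  exact H B hB ω ω' (of_cond_pos hω) (of_cond_pos hω') e1.1 e1.2 N hN

/-- **From a part of almost full measure to the whole.** -/
theorem few_up {Ω α β : Type} [Fintype Ω] {p : Ω → ℝ} (hp : IsLaw p) {A Bad : Ω → Prop}
    (hA : 0 < Pe p A) {η M E : ℝ} (hb : Pb (Pool.Agent.H49.Ent.cond p A True) Bad ≤ η)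
    (hM : 0 ≤ M) (hE : 0 ≤ E) {u : Ω → α} {Y : Ω → β} (hu : (cnt p u A : ℝ) ≤ Real.exp M)
    (h : CH (Pool.Agent.H49.Ent.cond p (fun ω => A ω ∧ ¬ Bad ω) True) u Y ≤ E) :
    CH (Pool.Agent.H49.Ent.cond p A True) u Y ≤ Real.log 2 + E + η * M := by
  classical
  have h1 := Pool.OVN.CH_split hp (B := A) (B' := fun ω => A ω ∧ ¬ Bad ω) (fun ω hω => hω.1) hA u Y
  have e1 : (fun ω => A ω ∧ ¬ (A ω ∧ ¬ Bad ω)) = fun ω => A ω ∧ Bad ω := by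
    funext ω
    exact propext ⟨fun h => ⟨h.1, by_contra fun h' => h.2 ⟨h.1, h'⟩⟩, fun h => ⟨h.1, fun h' =>
      h'.2 h.2⟩⟩
  rw [e1] at h1
  have e2 : Pe p (fun ω => A ω ∧ Bad ω) ≤ η * Pe p A := by
    rw [Pool.LA91.Pb_cond hA, div_le_iff₀ hA] at hb
    exact hb
  have h3 : Pe p (fun ω => A ω ∧ Bad ω) *
      CH (Pool.Agent.H49.Ent.cond p (fun ω => A ω ∧ Bad ω) True) u Y ≤ η * Pe p A * M := by
    rcases (Pe_nonneg hp (fun ω => A ω ∧ Bad ω)).eq_or_lt with h0 | h0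
    · rw [← h0, zero_mul]
      have : 0 ≤ η * Pe p A := (Pe_nonneg hp _).trans e2
      exact mul_nonneg this hM
    · have h4 := Pool.REX83.CH_le_cnt hp u Y h0 (M := Real.exp M) (Real.one_le_exp hM)
        (fun w => by
          have hs : Sub (fun ω => (A ω ∧ Bad ω) ∧ Y ω = w) A := fun ω hω => hω.1.1
          have h6 : (cnt p u (fun ω => (A ω ∧ Bad ω) ∧ Y ω = w) : ℝ) ≤ cnt p u A := by
            exact_mod_cast cnt_mono p u hs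
          exact h6.trans hu)
      rw [Real.log_exp] at h4
      refine (mul_le_mul_of_nonneg_left h4 h0.le).trans ?_
      exact mul_le_mul_of_nonneg_right e2 hM
  have h5 : Pe p (fun ω => A ω ∧ ¬ Bad ω) *
      CH (Pool.Agent.H49.Ent.cond p (fun ω => A ω ∧ ¬ Bad ω) True) u Y ≤ Pe p A * E :=
    (mul_le_mul_of_nonneg_left h (Pe_nonneg hp _)).trans
      (mul_le_mul_of_nonneg_right (Pool.K2S.Pe_mono hp (show Sub (fun ω => A ω ∧ ¬ Bad ω) A from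
        fun ω hω => hω.1)) hE)
  have h6 : Pe p A * CH (Pool.Agent.H49.Ent.cond p A True) u Y ≤
      Pe p A * (Real.log 2 + E + η * M) := by linarith
  exact le_of_mul_le_mul_left h6 hA

end Pool.NS71
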